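import Pool.Agent.Helper60.FF.LibC

set_option autoImplicit false

namespace Pool.Agent.Helper60.FF

open Polynomial

section

variable {p : ℕ} [hp : Fact p.Prime]

/-! ## bounded power series -/

theorem dsk_summable {g : ℕ → ℂ_[p]} (hg : ∀ k, ‖g k‖ ≤ 1) {y : ℂ_[p]} (hy : ‖y‖ < 1) :
    Summable fun k => g k * y ^ k := by
  refine Summable.of_norm_bounded (g := fun k => ‖y‖ ^ k)
    (summable_geometric_of_lt_one (norm_nonneg _) hy) (fun k => ?_)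
  rw [norm_mul, norm_pow]
  exact mul_le_of_le_one_left (pow_nonneg (norm_nonneg _) k) (hg k)

theorem dsk_tsum_res {g : ℕ → ℂ_[p]} (hg : ∀ k, ‖g k‖ ≤ 1) {y : ℂ_[p]} (hy : ‖y‖ < 1) :
    ‖∑' k, g k * y ^ k‖ ≤ 1 ∧ res (∑' k, g k * y ^ k) = res (g 0) := by
  have h1 := (dsk_summable hg hy).tsum_eq_zero_add
  have h2 : ‖∑' k, g (k + 1) * y ^ (k + 1)‖ ≤ ‖y‖ := by
    refine IsUltrametricDist.norm_tsum_le_of_forall_le_of_nonneg (norm_nonneg _) (fun k => ?_)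
    rw [norm_mul, norm_pow, pow_succ]
    have h3 : ‖y‖ ^ k ≤ 1 := pow_le_one₀ (norm_nonneg _) hy.le
    have h4 : ‖g (k + 1)‖ * ‖y‖ ^ k ≤ 1 := mul_le_one₀ (hg _) (pow_nonneg (norm_nonneg _) k) h3
    calc ‖g (k + 1)‖ * (‖y‖ ^ k * ‖y‖) = (‖g (k + 1)‖ * ‖y‖ ^ k) * ‖y‖ := by ring
      _ ≤ 1 * ‖y‖ := mul_le_mul_of_nonneg_right h4 (norm_nonneg _)
      _ = ‖y‖ := one_mul _
  have h5 : ‖∑' k, g (k + 1) * y ^ (k + 1)‖ ≤ 1 := h2.trans hy.le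
  have h6 : res (∑' k, g (k + 1) * y ^ (k + 1)) = 0 :=
    (res_eq_zero h5).2 (lt_of_le_of_lt h2 hy)
  rw [pow_zero, mul_one] at h1
  rw [h1]
  refine ⟨(OO p).add_mem _ _ (hg 0) h5, ?_⟩
  rw [res_add (hg 0) h5, h6, add_zero]

/-! ## absolute values of a polynomial near a point -/

theorem dsk_ultra {x y : ℂ_[p]} (h : ‖x - y‖ < ‖y‖) : ‖x‖ = ‖y‖ := by
  have h1 : ‖x - y‖ ≠ ‖y‖ := h.ne
  have h2 := IsUltrametricDist.norm_add_eq_max_of_norm_ne_norm h1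
  rw [sub_add_cancel, max_eq_right h.le] at h2
  exact h2

theorem dsk_poly {P : Polynomial ℂ_[p]} (hP : P ≠ 0) (v : ℂ_[p]) :
    ∃ ε Cc : ℝ, 0 < ε ∧ 0 < Cc ∧ ∀ τ : ℂ_[p], ‖τ - v‖ < ε →
      ‖P.eval τ‖ = Cc * ‖τ - v‖ ^ (P.rootMultiplicity v) := by
  obtain ⟨Q, hQ, hQv⟩ := exists_eq_pow_rootMultiplicity_mul_and_not_dvd P hP v
  have h0 : Q.eval v ≠ 0 := fun h => hQv (dvd_iff_isRoot.2 h)
  have hpos : 0 < ‖Q.eval v‖ := norm_pos_iff.2 h0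
  have hc : Continuous fun x : ℂ_[p] => Q.eval x := Q.continuous
  obtain ⟨ε, hε, h1⟩ := Metric.continuousAt_iff.1 hc.continuousAt _ hpos
  refine ⟨ε, ‖Q.eval v‖, hε, hpos, fun τ hτ => ?_⟩
  have h2 := h1 (x := τ) (by rw [dist_eq_norm]; exact hτ)
  rw [dist_eq_norm] at h2
  have h3 : P.eval τ = (τ - v) ^ (P.rootMultiplicity v) * Q.eval τ := by
    conv_lhs => rw [hQ]
    rw [eval_mul, eval_pow, eval_sub, eval_X, eval_C]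
  rw [h3, norm_mul, norm_pow, dsk_ultra h2, mul_comm]

/-- divisibility of an exponent from values in a local field -/
theorem dsk_ord (hTRA : ST_TRA) {A : Subfield ℂ_[p]} (hA : (A : Set ℂ_[p]).Countable)
    {E : IntermediateField ℚ_[p] ℂ_[p]} {π : ℂ_[p]} {f : ℕ} (hL : LF E π f) {v : ℂ_[p]} (hv : v ∈ E)
    {a₀ ε : ℝ} (hε : 0 < ε) {s : ℤ} {m : ℕ}
    (h : ∀ τ ∈ E, τ ∉ A → 0 < ‖τ - v‖ → ‖τ - v‖ < ε →
      ∃ w ∈ E, w ≠ 0 ∧ a₀ * ‖τ - v‖ ^ s = ‖w‖ ^ m) : (m : ℤ) ∣ s := by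
  have hπ := hL.pos
  have key : ∀ k : ℕ, ‖π‖ ^ k < ε → ∃ j : ℤ, a₀ * (‖π‖ ^ k) ^ s = (‖π‖ ^ j) ^ m := by
    intro k hk
    obtain ⟨τ, hτ, hτA, hτ1⟩ := hTRA p A hA E hL.fin (v + π ^ k) (add_mem hv (pow_mem hL.mem k))
      (‖π‖ ^ k) (pow_pos hπ k)
    have h1 : ‖τ - v‖ = ‖π‖ ^ k := by
      rw [← norm_pow]
      refine dsk_ultra ?_
      rw [norm_pow, sub_sub]
      exact hτ1
    obtain ⟨w, hw, hw0, hw1⟩ := h τ hτ hτA (by rw [h1]; exact pow_pos hπ k) (by rw [h1]; exact hk)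
    obtain ⟨j, hj⟩ := hL.val w hw hw0
    exact ⟨j, by rw [← h1, ← hj]; exact hw1⟩
  obtain ⟨k, hk⟩ := exists_pow_lt_of_lt_one hε hL.lt
  obtain ⟨j, hj⟩ := key k hk
  obtain ⟨j', hj'⟩ := key (k + 1) (by
    rw [pow_succ]
    calc ‖π‖ ^ k * ‖π‖ ≤ ‖π‖ ^ k * 1 := mul_le_mul_of_nonneg_left hL.lt.le (pow_nonneg hπ.le k)
      _ = ‖π‖ ^ k := mul_one _
      _ < ε := hk)
  have e1 : a₀ * ‖π‖ ^ ((k : ℤ) * s) = ‖π‖ ^ (j * (m : ℤ)) := by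
    rw [zpow_mul, zpow_mul, zpow_natCast, zpow_natCast]
    exact hj
  have e2 : a₀ * ‖π‖ ^ (((k : ℤ) + 1) * s) = ‖π‖ ^ (j' * (m : ℤ)) := by
    rw [zpow_mul, zpow_mul, zpow_natCast, show (k : ℤ) + 1 = ((k + 1 : ℕ) : ℤ) by push_cast; ring,
      zpow_natCast]
    exact hj'
  have e3 : ‖π‖ ^ (j * (m : ℤ) + s) = ‖π‖ ^ (j' * (m : ℤ)) := by
    rw [zpow_add₀ hπ.ne', ← e1, ← e2, add_mul, one_mul, zpow_add₀ hπ.ne', mul_assoc]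
  have e4 := lib_zpow_inj hπ hL.lt e3
  refine ⟨j' - j, ?_⟩
  linear_combination e4

/-! ## the polynomial `ϖ ^ deg P * P((u - a) / ϖ)` -/

/-- the polynomial `ϖ ^ deg P * P((u - a) / ϖ)` -/
noncomputable def dskP (a ϖ : ℂ_[p]) (P : Polynomial ℂ_[p]) : Polynomial ℂ_[p] :=
  (scaleRoots P ϖ).comp (X + C (-a))

theorem dskP_eval (a ϖ : ℂ_[p]) (hϖ : ϖ ≠ 0) (P : Polynomial ℂ_[p]) (τ : ℂ_[p]) :
    (dskP a ϖ P).eval τ = ϖ ^ P.natDegree * P.eval ((τ - a) / ϖ) := by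
  rw [dskP, eval_comp, eval_add, eval_X, eval_C, ← sub_eq_add_neg, ← scaleRoots_eval_mul,
    mul_div_cancel₀ _ hϖ]

theorem dskP_monic (a ϖ : ℂ_[p]) {P : Polynomial ℂ_[p]} (hP : P.Monic) : (dskP a ϖ P).Monic :=
  ((monic_scaleRoots_iff ϖ).2 hP).comp_X_add_C (-a)

theorem dskP_mem {E : IntermediateField ℚ_[p] ℂ_[p]} {a ϖ : ℂ_[p]} (ha : a ∈ E) (hϖ : ϖ ∈ E)
    {P : Polynomial ℂ_[p]} (hP : ∀ j, P.coeff j ∈ E) (j : ℕ) : (dskP a ϖ P).coeff j ∈ E := by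
  have h1 : scaleRoots P ϖ ∈ lifts (algebraMap E ℂ_[p]) := by
    refine (lifts_iff_coeff_lifts (f := algebraMap E ℂ_[p]) _).2 (fun j => ?_)
    rw [coeff_scaleRoots]
    exact ⟨⟨_, mul_mem (hP j) (pow_mem hϖ _)⟩, rfl⟩
  obtain ⟨P', hP'⟩ := (mem_lifts _).1 h1
  have h2 : dskP a ϖ P = (P'.comp (X + C (⟨-a, neg_mem ha⟩ : E))).map (algebraMap E ℂ_[p]) := by
    rw [dskP, Polynomial.map_comp, hP', Polynomial.map_add, Polynomial.map_X, Polynomial.map_C]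
    rfl
  rw [h2, coeff_map]
  exact SetLike.coe_mem _

/-- the divisibility at a point of the disc -/
theorem dsk_key (hTRA : ST_TRA) (hLFX : ST_LFX) (hEVH : ST_EVH) {n : ℕ} (K : KD p n) (a ϖ : K.A)
    (hϖ : ϖ ≠ 0) {φ : Polynomial (RF p)} {E : IntermediateField ℚ_[p] ℂ_[p]}
    (hEf : FiniteDimensional ℚ_[p] E) (hE : K.E₀ ≤ E) {c : K.A} (hc : (c : ℂ_[p]) ∈ E)
    {P0 : Polynomial ℂ_[p]} (hP0 : P0.Monic) {Cc : ℝ} (hCc : 0 < Cc)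
    (hX : ∀ τ : ℂ_[p], IsAlgebraic ℚ_[p] τ → τ ∉ K.A → ‖τ - a‖ < ‖(ϖ : ℂ_[p])‖ → ∀ c' : K.A,
      ‖(c' : ℂ_[p])‖ ≤ 1 → φ.eval (res (c' : ℂ_[p])) ≠ 0 → (K.χ τ).eval (c' : ℂ_[p]) ≠ 0 ∧
        ‖(K.χ τ).eval (c : ℂ_[p])‖ =
          Cc * ‖P0.eval ((τ - a) / ϖ)‖ * ‖(K.χ τ).eval (c' : ℂ_[p])‖)
    {c' : K.A} (hc' : ‖(c' : ℂ_[p])‖ ≤ 1) (hφ : φ.eval (res (c' : ℂ_[p])) ≠ 0) {m : ℕ} (hm : 0 < m)
    {v : ℂ_[p]} (hva : IsAlgebraic ℚ_[p] v) (hv : ‖v - a‖ < ‖(ϖ : ℂ_[p])‖) {o : ℤ}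
    (ho : ∃ ε C₁ : ℝ, 0 < ε ∧ 0 < C₁ ∧ ∀ τ : ℂ_[p], τ ∉ K.A → ‖τ - v‖ < ε →
      ‖ev K.A τ (K.H m (RatFunc.C c) / K.H m (RatFunc.C c'))‖ = C₁ * ‖τ - v‖ ^ o) :
    (m : ℤ) ∣ ((dskP a ϖ P0).rootMultiplicity v : ℤ) - o := by
  have hϖ0 : (ϖ : ℂ_[p]) ≠ 0 := fun h => hϖ (Subtype.ext h)
  have hϖp : 0 < ‖(ϖ : ℂ_[p])‖ := norm_pos_iff.2 hϖ0
  obtain ⟨E', hE'f, hEE', hvE', hcE', -⟩ := lib_ext2 E hEf v c' hva (K.alg _ c'.2)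
  obtain ⟨-, π, -, f, hL⟩ := hLFX p K.A K.acl E' hE'f
  obtain ⟨ε₁, C₁, hε₁, hC₁, h1⟩ := ho
  obtain ⟨ε₂, C₂, hε₂, hC₂, h2⟩ := dsk_poly (dskP_monic (a : ℂ_[p]) (ϖ : ℂ_[p]) hP0).ne_zero v
  have hd : 0 < ‖(ϖ : ℂ_[p])‖ ^ P0.natDegree := pow_pos hϖp _
  refine dsk_ord hTRA K.cnt hL hvE' (a₀ := Cc * C₂ / (‖(ϖ : ℂ_[p])‖ ^ P0.natDegree * C₁))
    (ε := min (min ε₁ ε₂) ‖(ϖ : ℂ_[p])‖) (lt_min (lt_min hε₁ hε₂) hϖp) ?_
  intro τ hτ hτA hτ0 hτε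
  obtain ⟨h12, h3⟩ := lt_min_iff.1 hτε
  obtain ⟨h4, h5⟩ := lt_min_iff.1 h12
  have hdisc : ‖τ - a‖ < ‖(ϖ : ℂ_[p])‖ := by
    have e : τ - a = (τ - v) + (v - a) := by ring
    rw [e]
    exact lt_of_le_of_lt (PadicComplex.isNonarchimedean p _ _) (max_lt h3 hv)
  obtain ⟨hne, hX1⟩ := hX τ (lib_alg hE'f hτ) hτA hdisc c' hc' hφ
  have hP0τ : ‖(ϖ : ℂ_[p])‖ ^ P0.natDegree * ‖P0.eval ((τ - a) / ϖ)‖ =
      C₂ * ‖τ - v‖ ^ ((dskP (a : ℂ_[p]) (ϖ : ℂ_[p]) P0).rootMultiplicity v) := by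
    rw [← h2 τ h5, dskP_eval _ _ hϖ0, norm_mul, norm_pow]
  have hpos : 0 < ‖P0.eval ((τ - a) / ϖ)‖ := by
    have h6 : 0 < ‖(ϖ : ℂ_[p])‖ ^ P0.natDegree * ‖P0.eval ((τ - a) / ϖ)‖ := by
      rw [hP0τ]
      exact mul_pos hC₂ (pow_pos hτ0 _)
    exact pos_of_mul_pos_right h6 hd.le
  have hχc' : 0 < ‖(K.χ τ).eval (c' : ℂ_[p])‖ := norm_pos_iff.2 hne
  have hχc : (K.χ τ).eval (c : ℂ_[p]) ≠ 0 := by
    rw [← norm_pos_iff, hX1]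
    exact mul_pos (mul_pos hCc hpos) hχc'
  obtain ⟨w, hw, hw0, hw1⟩ := lib_kumC hEVH K hE'f (hE.trans hEE') (hEE' hc) hcE' hτ hτA hm hχc hne
  refine ⟨w, hw, hw0, ?_⟩
  have h7 := congrArg norm hw1
  rw [norm_div, norm_mul, norm_pow, h1 τ hτA h4, hX1, mul_div_assoc, div_self hχc'.ne',
    mul_one] at h7
  have hz : 0 < ‖τ - v‖ ^ o := zpow_pos hτ0 o
  have h8 : ‖τ - v‖ ^ (((dskP (a : ℂ_[p]) (ϖ : ℂ_[p]) P0).rootMultiplicity v : ℤ) - o) * ‖τ - v‖ ^ o =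
      ‖τ - v‖ ^ ((dskP (a : ℂ_[p]) (ϖ : ℂ_[p]) P0).rootMultiplicity v) := by
    rw [← zpow_add₀ hτ0.ne', sub_add_cancel, zpow_natCast]
  refine mul_right_cancel₀ (mul_pos (mul_pos hd hC₁) hz).ne' ?_
  calc Cc * C₂ / (‖(ϖ : ℂ_[p])‖ ^ P0.natDegree * C₁) *
        ‖τ - v‖ ^ (((dskP (a : ℂ_[p]) (ϖ : ℂ_[p]) P0).rootMultiplicity v : ℤ) - o) *
        (‖(ϖ : ℂ_[p])‖ ^ P0.natDegree * C₁ * ‖τ - v‖ ^ o)
      = (Cc * C₂ / (‖(ϖ : ℂ_[p])‖ ^ P0.natDegree * C₁) * (‖(ϖ : ℂ_[p])‖ ^ P0.natDegree * C₁)) *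
        (‖τ - v‖ ^ (((dskP (a : ℂ_[p]) (ϖ : ℂ_[p]) P0).rootMultiplicity v : ℤ) - o) *
          ‖τ - v‖ ^ o) := by ring
    _ = Cc * (C₂ * ‖τ - v‖ ^ ((dskP (a : ℂ_[p]) (ϖ : ℂ_[p]) P0).rootMultiplicity v)) := by
        rw [div_mul_cancel₀ _ (mul_pos hd hC₁).ne', h8]
        ring
    _ = (‖(ϖ : ℂ_[p])‖ ^ P0.natDegree) * (Cc * ‖P0.eval ((τ - a) / ϖ)‖) := by
        rw [← hP0τ]
        ring
    _ = ‖w‖ ^ m * (‖(ϖ : ℂ_[p])‖ ^ P0.natDegree * C₁ * ‖τ - v‖ ^ o) := by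
        rw [h7]
        ring

/-- values of `χ τ` on the disc -/
theorem dsk_X {n : ℕ} (K : KD p n) {a ϖ : ℂ_[p]} {φ : Polynomial (RF p)} {G : ℕ → ℕ → ℂ_[p]}
    (hG : ∀ j k, ‖G j k‖ ≤ 1) {s : RF p} (hs : s ≠ 0) (hG0 : ∀ j, res (G j 0) = s * φ.coeff j)
    {τ : ℂ_[p]} (hτ : IsAlgebraic ℚ_[p] τ) (hτA : τ ∉ K.A) (hy : ‖(τ - a) / ϖ‖ < 1) {r : ℂ_[p]}
    (hr : ∀ j, r * (K.χ τ).coeff j = ∑' k, G j k * ((τ - a) / ϖ) ^ k) :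
    (∀ c' : ℂ_[p], ‖c'‖ ≤ 1 → φ.eval (res c') ≠ 0 → ‖r * (K.χ τ).eval c'‖ = 1) ∧
    ∀ c : ℂ_[p], r * (K.χ τ).eval c =
      ∑' k, (∑ j ∈ Finset.range (n + 1), G j k * c ^ j) * ((τ - a) / ϖ) ^ k := by
  have hco : ∀ j, ‖(C r * K.χ τ).coeff j‖ ≤ 1 ∧ res ((C r * K.χ τ).coeff j) = s * φ.coeff j := by
    intro j
    rw [coeff_C_mul, hr]
    obtain ⟨h1, h2⟩ := dsk_tsum_res (hG j) hy
    exact ⟨h1, by rw [h2, hG0]⟩
  constructor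
  · intro c' hc' hφ
    obtain ⟨h1, h2⟩ := lib_rd_eval (fun j => (hco j).1) hc'
    have h3 : rd (C r * K.χ τ) = C s * φ := by
      ext j
      rw [coeff_rd, (hco j).2, coeff_C_mul]
    rw [h3, eval_mul, eval_C] at h2
    rw [eval_mul, eval_C] at h1 h2
    refine (norm_eq_one_iff h1).2 ?_
    rw [h2]
    exact mul_ne_zero hs hφ
  · intro c
    obtain ⟨-, hdeg⟩ := K.χ0 τ hτ hτA
    rw [eval_eq_sum_range' (Nat.lt_succ_of_le hdeg), Finset.mul_sum]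
    have h1 : ∀ j ∈ Finset.range (n + 1), r * ((K.χ τ).coeff j * c ^ j) =
        ∑' k, G j k * ((τ - a) / ϖ) ^ k * c ^ j := by
      intro j _
      rw [tsum_mul_right, ← hr]
      ring
    rw [Finset.sum_congr rfl h1, ← Summable.tsum_finsetSum]
    · refine tsum_congr (fun k => ?_)
      rw [Finset.sum_mul]
      refine Finset.sum_congr rfl (fun j _ => ?_)
      ring
    · intro j _
      exact (dsk_summable (hG j) hy).mul_right _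

end

theorem st_DSK (hL5 : ST_L5) (hWEI : ST_WEI) (hNRV : ST_NRV) (hTRA : ST_TRA) (hLFX : ST_LFX)
    (hEVH : ST_EVH) (hORD : ST_ORD) : ST_DSK := by
  classical
  intro p n _ pp K a ϖ φ hϖ hGD
  obtain ⟨-, hL⟩ := hL5 p n pp K a ϖ φ hϖ hGD
  obtain ⟨Em, hEmf, hE0, haE, hϖE, hEm⟩ := lib_ext2 K.E₀ K.fin₀ a ϖ (K.alg _ a.2) (K.alg _ ϖ.2)
  obtain ⟨G, hG, ⟨s, hs, hG0⟩, hGn, hGτ⟩ := hL Em hEmf hE0 haE hϖE
  have hφ : φ ≠ 0 := hGD.2.1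
  have hφd : φ.natDegree ≤ n := hGD.2.2.1
  have hϖ0 : (ϖ : ℂ_[p]) ≠ 0 := fun h => hϖ (Subtype.ext h)
  have hϖp : 0 < ‖(ϖ : ℂ_[p])‖ := norm_pos_iff.2 hϖ0
  have hnp : n < p := by
    have := pp.big
    nlinarith
  refine ⟨{c | ∀ k, ∑ j ∈ Finset.range (n + 1), G j k * (c : ℂ_[p]) ^ j = 0}, ?_, ?_⟩
  · have hF : (∑ j ∈ Finset.range (n + 1), C (G j 0) * X ^ j : Polynomial ℂ_[p]) ≠ 0 := by
      intro h0
      have h1 : s * φ.coeff φ.natDegree ≠ 0 := mul_ne_zero hs (leadingCoeff_ne_zero.2 hφ)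
      rw [← hG0] at h1
      apply h1
      have h2 := congrArg (fun W : Polynomial ℂ_[p] => W.coeff φ.natDegree) h0
      simp only [finsetSum_coeff, coeff_C_mul, coeff_X_pow, coeff_zero] at h2
      rw [Finset.sum_eq_single φ.natDegree] at h2
      · rw [if_pos rfl, mul_one] at h2
        rw [h2, res_zero]
      · intro b _ hb
        rw [if_neg (Ne.symm hb), mul_zero]
      · intro hb
        exact absurd (Finset.mem_range.2 (Nat.lt_succ_of_le hφd)) hb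
    refine Set.Finite.subset ((Multiset.toFinset
      (∑ j ∈ Finset.range (n + 1), C (G j 0) * X ^ j : Polynomial ℂ_[p]).roots).finite_toSet.preimage
      (Subtype.val_injective.injOn)) ?_
    intro c hc
    rw [Set.mem_preimage, Finset.mem_coe, Multiset.mem_toFinset, mem_roots hF]
    show (∑ j ∈ Finset.range (n + 1), C (G j 0) * X ^ j : Polynomial ℂ_[p]).eval (c : ℂ_[p]) = 0
    rw [eval_finsetSum]
    simp only [eval_mul, eval_C, eval_pow, eval_X]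
    exact hc 0
  · intro c hc1 hcS E hEf hE ha hϖ' hc
    have hEmE : Em ≤ E := hEm E hE ha hϖ'
    have hgE : ∀ k, (∑ j ∈ Finset.range (n + 1), G j k * (c : ℂ_[p]) ^ j) ∈ E ∧
        ‖∑ j ∈ Finset.range (n + 1), G j k * (c : ℂ_[p]) ^ j‖ ≤ 1 := by
      intro k
      refine ⟨sum_mem (fun j _ => mul_mem (hEmE (hG j k).1) (pow_mem hc j)), ?_⟩
      exact sum_mem (S := OO p) (fun j _ => mul_mem (show G j k ∈ OO p from (hG j k).2)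
        (pow_mem (show (c : ℂ_[p]) ∈ OO p from hc1) j))
    have hgne : ∃ k, (∑ j ∈ Finset.range (n + 1), G j k * (c : ℂ_[p]) ^ j) ≠ 0 := by
      by_contra hcon
      push Not at hcon
      exact hcS hcon
    obtain ⟨P0, Cc, hP0, hP0E, hP0r, hCc, hW⟩ := hWEI p E hEf _ hgE hgne
    have hX : ∀ τ : ℂ_[p], IsAlgebraic ℚ_[p] τ → τ ∉ K.A → ‖τ - a‖ < ‖(ϖ : ℂ_[p])‖ → ∀ c' : K.A,
        ‖(c' : ℂ_[p])‖ ≤ 1 → φ.eval (res (c' : ℂ_[p])) ≠ 0 → (K.χ τ).eval (c' : ℂ_[p]) ≠ 0 ∧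
          ‖(K.χ τ).eval (c : ℂ_[p])‖ =
            Cc * ‖P0.eval ((τ - a) / ϖ)‖ * ‖(K.χ τ).eval (c' : ℂ_[p])‖ := by
      intro τ hτ hτA hτd c' hc' hφc
      have hy : ‖(τ - (a : ℂ_[p])) / (ϖ : ℂ_[p])‖ < 1 := by
        rw [norm_div, div_lt_one hϖp]
        exact hτd
      obtain ⟨r, hr0, hr⟩ := hGτ τ hτ hτA hτd
      obtain ⟨h1, h2⟩ := dsk_X K (fun j k => (hG j k).2) hs hG0 hτ hτA hy hr
      have h3 := h1 c' hc' hφc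
      have h4 := congrArg norm (h2 c)
      rw [hW _ hy, norm_mul] at h4
      rw [norm_mul] at h3
      have h5 : 0 < ‖(K.χ τ).eval (c' : ℂ_[p])‖ := by
        rcases (norm_nonneg ((K.χ τ).eval (c' : ℂ_[p]))).eq_or_lt with h | h
        · rw [← h, mul_zero] at h3
          exact absurd h3 zero_ne_one
        · exact h
      refine ⟨norm_pos_iff.1 h5, ?_⟩
      calc ‖(K.χ τ).eval (c : ℂ_[p])‖ = ‖(K.χ τ).eval (c : ℂ_[p])‖ *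
            (‖r‖ * ‖(K.χ τ).eval (c' : ℂ_[p])‖) := by rw [h3, mul_one]
        _ = (‖r‖ * ‖(K.χ τ).eval (c : ℂ_[p])‖) * ‖(K.χ τ).eval (c' : ℂ_[p])‖ := by ring
        _ = _ := by rw [h4]
    have hkey := fun (c' : K.A) (hc' : ‖(c' : ℂ_[p])‖ ≤ 1) (hφc : φ.eval (res (c' : ℂ_[p])) ≠ 0)
      (m : ℕ) (hm : 0 < m) (v : ℂ_[p]) (hva : IsAlgebraic ℚ_[p] v)
      (hv : ‖v - a‖ < ‖(ϖ : ℂ_[p])‖) (o : ℤ) => dsk_key hTRA hLFX hEVH K a ϖ hϖ hEf hE hc hP0 hCc hX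
        hc' hφc hm hva hv (o := o)
    obtain ⟨i₀, hi₀, hφi⟩ := lib_ex_nat hnp φ hφ hφd
    have hi1 : (((i₀ : ℕ) : K.A) : ℂ_[p]) = (i₀ : ℂ_[p]) := map_natCast K.A.subtype i₀
    have hi2 : ‖(((i₀ : ℕ) : K.A) : ℂ_[p])‖ ≤ 1 := by
      rw [hi1]
      exact lib_nat i₀
    have hi3 : φ.eval (res (((i₀ : ℕ) : K.A) : ℂ_[p])) ≠ 0 := by
      rw [hi1, res_natCast]
      exact hφi
    have hmon := dskP_monic (a : ℂ_[p]) (ϖ : ℂ_[p]) hP0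
    have hmem := dskP_mem ha hϖ' hP0E
    -- roots are algebraic, in the disc
    have hroot : ∀ v : ℂ_[p], (dskP (a : ℂ_[p]) (ϖ : ℂ_[p]) P0).eval v = 0 →
        ‖v - a‖ < ‖(ϖ : ℂ_[p])‖ := by
      intro v hv
      rw [dskP_eval _ _ hϖ0, mul_eq_zero] at hv
      rcases hv with hv | hv
      · exact absurd hv (pow_ne_zero _ hϖ0)
      · have h1 := hP0r _ hv
        rwa [norm_div, div_lt_one hϖp] at h1
    have halg : ∀ v : ℂ_[p], (dskP (a : ℂ_[p]) (ϖ : ℂ_[p]) P0).eval v = 0 →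
        IsAlgebraic ℚ_[p] v := by
      intro v hv
      have h1 : dskP (a : ℂ_[p]) (ϖ : ℂ_[p]) P0 ∈ lifts (algebraMap E ℂ_[p]) :=
        (lifts_iff_coeff_lifts (f := algebraMap E ℂ_[p]) _).2 (fun j => ⟨⟨_, hmem j⟩, rfl⟩)
      obtain ⟨P', hP'⟩ := (mem_lifts _).1 h1
      have h2 : IsAlgebraic E v := by
        refine ⟨P', ?_, ?_⟩
        · rintro rfl
          rw [Polynomial.map_zero] at hP'
          exact hmon.ne_zero hP'.symm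
        · rw [aeval_def, ← eval_map, hP']
          exact hv
      have : Algebra.IsAlgebraic ℚ_[p] E := Algebra.IsAlgebraic.of_finite ℚ_[p] E
      exact h2.restrictScalars ℚ_[p]
    have hinA : ∀ v : ℂ_[p], (dskP (a : ℂ_[p]) (ϖ : ℂ_[p]) P0).eval v = 0 → v ∈ K.A := by
      intro v hv
      by_contra hvA
      set e := (dskP (a : ℂ_[p]) (ϖ : ℂ_[p]) P0).rootMultiplicity v with he
      have he0 : 0 < e := (rootMultiplicity_pos hmon.ne_zero).2 hv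
      have hm : 0 < e + 1 := Nat.succ_pos e
      have hh : K.H (e + 1) (RatFunc.C c) / K.H (e + 1) (RatFunc.C ((i₀ : ℕ) : K.A)) ≠ 0 :=
        div_ne_zero (K.H0 _ _ hm) (K.H0 _ _ hm)
      obtain ⟨ε, C₁, hε, hC₁, h1⟩ := (hNRV p K.A K.acl _ hh).2 v hvA
      have h2 := hkey _ hi2 hi3 (e + 1) hm v (halg v hv) (hroot v hv) 0
        ⟨ε, C₁, hε, hC₁, fun τ h3 h4 => by rw [zpow_zero, mul_one]; exact h1 τ h3 h4⟩
      rw [sub_zero, Int.natCast_dvd_natCast] at h2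
      have h3 := Nat.le_of_dvd he0 h2
      omega
    have hlift : dskP (a : ℂ_[p]) (ϖ : ℂ_[p]) P0 ∈ lifts K.A.subtype := by
      refine (IsAlgClosed.splits _).mem_lift_of_roots_mem_range hmon K.A.subtype (fun v hv => ?_)
      exact ⟨⟨v, hinA v ((mem_roots hmon.ne_zero).1 hv)⟩, rfl⟩
    obtain ⟨P, hP⟩ := (mem_lifts _).1 hlift
    have hinj : Function.Injective K.A.subtype := Subtype.val_injective
    have hPeval : ∀ τ : ℂ_[p], P.eval₂ K.A.subtype τ =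
        (dskP (a : ℂ_[p]) (ϖ : ℂ_[p]) P0).eval τ := by
      intro τ
      rw [← hP, eval_map]
    refine ⟨P, monic_of_injective hinj (by rw [hP]; exact hmon), ?_, ?_, ?_, ?_⟩
    · intro j
      have h1 := hmem j
      rw [← hP, coeff_map] at h1
      exact h1
    · intro v hv
      refine hroot v ?_
      rw [← hPeval, show (v : ℂ_[p]) = K.A.subtype v from rfl, eval₂_at_apply, hv, map_zero]
    · intro τ hτ hτA hτd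
      obtain ⟨-, h2⟩ := hX τ hτ hτA hτd _ hi2 hi3
      obtain ⟨h1, -⟩ := hX τ hτ hτA hτd _ hi2 hi3
      rw [← norm_pos_iff, h2]
      refine mul_pos (mul_pos hCc (norm_pos_iff.2 ?_)) (norm_pos_iff.2 h1)
      intro h0
      apply hτA
      apply hinA
      rw [dskP_eval _ _ hϖ0, h0, mul_zero]
    · intro c' hc' hφc m hm v hv
      have hh : K.H m (RatFunc.C c) / K.H m (RatFunc.C c') ≠ 0 :=
        div_ne_zero (K.H0 _ _ hm) (K.H0 _ _ hm)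
      obtain ⟨ε, C₁, hε, hC₁, h1⟩ := (hNRV p K.A K.acl _ hh).1 v
      have h2 := hkey c' hc' hφc m hm v (K.alg _ v.2) hv _ ⟨ε, C₁, hε, hC₁, h1⟩
      obtain ⟨o1, o2, -⟩ := hORD p K.A
      rw [div_eq_mul_inv, o1 v _ _ (K.H0 _ _ hm) (inv_ne_zero (K.H0 _ _ hm)),
        o2 v _ (K.H0 _ _ hm)] at h2
      have h3 : (dskP (a : ℂ_[p]) (ϖ : ℂ_[p]) P0).rootMultiplicity (v : ℂ_[p]) =
          P.rootMultiplicity v := by
        rw [← hP]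
        exact (eq_rootMultiplicity_map hinj v).symm
      rw [h3] at h2
      have h4 := (dvd_neg (α := ℤ)).2 h2
      have h5 : -((P.rootMultiplicity v : ℤ) - (ordv K.A v (K.H m (RatFunc.C c)) +
          -ordv K.A v (K.H m (RatFunc.C c')))) = ordv K.A v (K.H m (RatFunc.C c)) -
          ordv K.A v (K.H m (RatFunc.C c')) - P.rootMultiplicity v := by ring
      rw [h5] at h4
      exact h4


end Pool.Agent.Helper60.FF
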