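import Pool.Agent.Helper60.FF.StmtsC
import Pool.Agent.Helper50.BSC.PadLib

set_option autoImplicit false

namespace Pool.Agent.Helper60.FF

open Polynomial

section

variable {p : ℕ} [hp : Fact p.Prime]

/-- a rational function defined over `A ∩ E` is a quotient of coprime polynomials over `A ∩ E` -/
theorem l3d_coprime (A : Subfield ℂ_[p]) (E : IntermediateField ℚ_[p] ℂ_[p]) (h : RatFunc A)
    (hh : h ≠ 0) (ho : Ov A E h) :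
    ∃ P Q : Polynomial A, P ≠ 0 ∧ Q ≠ 0 ∧ IsCoprime P Q ∧ (∀ j, ((P.coeff j : A) : ℂ_[p]) ∈ E) ∧
      (∀ j, ((Q.coeff j : A) : ℂ_[p]) ∈ E) ∧
      h * algebraMap (Polynomial A) (RatFunc A) Q = algebraMap (Polynomial A) (RatFunc A) P := by
  classical
  obtain ⟨P, Q, hQ, hPE, hQE, hPQ⟩ := ho
  have hinj : Function.Injective (algebraMap (Polynomial A) (RatFunc A)) :=
    RatFunc.algebraMap_injective A
  have hP : P ≠ 0 := by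
    rintro rfl
    rw [map_zero, mul_eq_zero] at hPQ
    rcases hPQ with h1 | h1
    · exact hh h1
    · exact hQ (hinj (by rw [h1, map_zero]))
  set F : Subfield A := E.toSubfield.comap A.subtype with hF
  have hlift : ∀ R : Polynomial A, (∀ j, ((R.coeff j : A) : ℂ_[p]) ∈ E) →
      ∃ R0 : Polynomial F, R0.map F.subtype = R := by
    intro R hR
    have := (lifts_iff_coeff_lifts (f := F.subtype) R).2 (fun j => ⟨⟨R.coeff j, hR j⟩, rfl⟩)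
    exact (mem_lifts R).1 this
  obtain ⟨P0, hP0⟩ := hlift P hPE
  obtain ⟨Q0, hQ0⟩ := hlift Q hQE
  have hQ0' : Q0 ≠ 0 := by
    rintro rfl
    rw [Polynomial.map_zero] at hQ0
    exact hQ hQ0.symm
  obtain ⟨P1, hP1⟩ := EuclideanDomain.gcd_dvd_left P0 Q0
  obtain ⟨Q1, hQ1⟩ := EuclideanDomain.gcd_dvd_right P0 Q0
  have hg0 : EuclideanDomain.gcd P0 Q0 ≠ 0 := by
    intro h0
    rw [h0, zero_mul] at hQ1
    exact hQ0' hQ1
  have hcop : IsCoprime P1 Q1 := by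
    refine ⟨EuclideanDomain.gcdA P0 Q0, EuclideanDomain.gcdB P0 Q0, ?_⟩
    have h1 := EuclideanDomain.gcd_eq_gcd_ab P0 Q0
    refine mul_left_cancel₀ hg0 ?_
    calc EuclideanDomain.gcd P0 Q0 * (EuclideanDomain.gcdA P0 Q0 * P1 + EuclideanDomain.gcdB P0 Q0 * Q1)
        = (EuclideanDomain.gcd P0 Q0 * P1) * EuclideanDomain.gcdA P0 Q0 +
          (EuclideanDomain.gcd P0 Q0 * Q1) * EuclideanDomain.gcdB P0 Q0 := by ring
      _ = EuclideanDomain.gcd P0 Q0 * 1 := by rw [← hP1, ← hQ1, ← h1, mul_one]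
  have hmem : ∀ R : Polynomial F, ∀ j, (((R.map F.subtype).coeff j : A) : ℂ_[p]) ∈ E := by
    intro R j
    rw [coeff_map]
    exact (R.coeff j).2
  have e1 : P = (EuclideanDomain.gcd P0 Q0).map F.subtype * P1.map F.subtype := by
    rw [← Polynomial.map_mul, ← hP1, hP0]
  have e2 : Q = (EuclideanDomain.gcd P0 Q0).map F.subtype * Q1.map F.subtype := by
    rw [← Polynomial.map_mul, ← hQ1, hQ0]
  refine ⟨P1.map F.subtype, Q1.map F.subtype, ?_, ?_, ?_, hmem P1, hmem Q1, ?_⟩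
  · intro h0
    rw [h0, mul_zero] at e1
    exact hP e1
  · intro h0
    rw [h0, mul_zero] at e2
    exact hQ e2
  · exact hcop.map (mapRingHom F.subtype)
  · rw [e1, e2, map_mul, map_mul] at hPQ
    have hg1 : algebraMap (Polynomial A) (RatFunc A) ((EuclideanDomain.gcd P0 Q0).map F.subtype) ≠ 0 := by
      intro h0
      have h1 : (EuclideanDomain.gcd P0 Q0).map F.subtype = 0 := hinj (by rw [h0, map_zero])
      rw [h1, zero_mul] at e2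
      exact hQ e2
    refine mul_left_cancel₀ hg1 ?_
    rw [← hPQ]
    ring

theorem l3d_norm {E₁ : IntermediateField ℚ_[p] ℂ_[p]} {π₁ : ℂ_[p]} {f₁ : ℕ} (hL : LF E₁ π₁ f₁)
    {x : ℂ_[p]} (hx : IsAlgebraic ℚ_[p] x) (h0 : x ≠ 0) :
    ∃ (d : ℕ) (j : ℤ), 0 < d ∧ ‖x‖ ^ d = ‖π₁‖ ^ j := by
  have hxE : IsAlgebraic E₁ x := hx.tower_top E₁
  have h1 := Pool.Agent.Helper14.BSC.pl_pow E₁ hL.fin hxE
  have h2 : (minpoly E₁ x).coeff 0 ≠ 0 := minpoly.coeff_zero_ne_zero hxE.isIntegral h0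
  obtain ⟨j, hj⟩ := hL.val _ (SetLike.coe_mem ((minpoly E₁ x).coeff 0))
    (fun h => h2 (Subtype.ext h))
  exact ⟨_, j, minpoly.natDegree_pos hxE.isIntegral, h1.trans hj⟩

/-- scaled polynomial -/
noncomputable def l3dP (π : ℂ_[p]) (e κ : ℤ) (k : ℕ) (R : Polynomial ℂ_[p]) : Polynomial ℂ_[p] :=
  C (π ^ (-(e + κ * k))) * R.comp (C (π ^ κ) * X)

theorem l3dP_coeff (π : ℂ_[p]) (e κ : ℤ) (k : ℕ) (R : Polynomial ℂ_[p]) (j : ℕ) :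
    (l3dP π e κ k R).coeff j = π ^ (-(e + κ * k)) * (R.coeff j * (π ^ κ) ^ j) := by
  rw [l3dP, coeff_C_mul, comp_C_mul_X_coeff]

theorem l3dP_eval (π : ℂ_[p]) (e κ : ℤ) (k : ℕ) (R : Polynomial ℂ_[p]) (x : ℂ_[p]) :
    (l3dP π e κ k R).eval x = π ^ (-(e + κ * k)) * R.eval (π ^ κ * x) := by
  rw [l3dP, eval_mul, eval_C, eval_comp, eval_mul, eval_C, eval_X]

theorem l3dP_norm {π : ℂ_[p]} (hπ : 0 < ‖π‖) {e κ : ℤ} {k : ℕ} {R : Polynomial ℂ_[p]} {r : ℝ}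
    (hr : r = ‖π‖ ^ κ) (he : ‖R.coeff k‖ = ‖π‖ ^ e) (j : ℕ) :
    ‖(l3dP π e κ k R).coeff j‖ = (‖R.coeff j‖ * r ^ j) / (‖R.coeff k‖ * r ^ k) := by
  rw [l3dP_coeff, norm_mul, norm_mul, norm_pow, norm_zpow, norm_zpow, ← hr, zpow_neg,
    zpow_add₀ hπ.ne', ← he, zpow_mul, zpow_natCast, ← hr]
  rw [div_eq_inv_mul]

theorem l3dP_props {E : IntermediateField ℚ_[p] ℂ_[p]} {π : ℂ_[p]} {f : ℕ} (hL : LF E π f)
    {e κ : ℤ} {k : ℕ} {R : Polynomial ℂ_[p]} (hR : ∀ j, R.coeff j ∈ E) {r : ℝ}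
    (hr : r = ‖π‖ ^ κ) (hk : R.coeff k ≠ 0) (he : ‖R.coeff k‖ = ‖π‖ ^ e)
    (hdom : ∀ j, ‖R.coeff j‖ * r ^ j ≤ ‖R.coeff k‖ * r ^ k) :
    Int' E (l3dP π e κ k R) ∧ (rd (l3dP π e κ k R)).coeff k = res (R.coeff k / π ^ e) ∧
      res (R.coeff k / π ^ e) ≠ 0 ∧
      ∀ j, ‖R.coeff j‖ * r ^ j < ‖R.coeff k‖ * r ^ k → (rd (l3dP π e κ k R)).coeff j = 0 := by
  have hπ := hL.pos
  have hπ0 : π ≠ 0 := norm_pos_iff.1 hπ
  have hr0 : 0 < r := hr ▸ zpow_pos hπ κ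
  have hden : 0 < ‖R.coeff k‖ * r ^ k := mul_pos (norm_pos_iff.2 hk) (pow_pos hr0 k)
  have hint : ∀ j, ‖(l3dP π e κ k R).coeff j‖ ≤ 1 := fun j => by
    rw [l3dP_norm hπ hr he, div_le_one hden]
    exact hdom j
  refine ⟨fun j => ⟨?_, hint j⟩, ?_, ?_, ?_⟩
  · rw [l3dP_coeff]
    exact mul_mem (zpow_mem hL.mem _) (mul_mem (hR j) (pow_mem (zpow_mem hL.mem _) _))
  · rw [coeff_rd, l3dP_coeff]
    congr 1
    rw [zpow_neg, zpow_add₀ hπ0, zpow_mul, zpow_natCast]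
    have h1 : (π ^ κ) ^ k ≠ 0 := pow_ne_zero _ (zpow_ne_zero _ hπ0)
    have h2 : π ^ e ≠ 0 := zpow_ne_zero _ hπ0
    field_simp
  · have h1 : ‖R.coeff k / π ^ e‖ = 1 := by
      rw [norm_div, norm_zpow, he, div_self (zpow_ne_zero _ hπ.ne')]
    exact (norm_eq_one_iff h1.le).1 h1
  · intro j hj
    rw [coeff_rd, res_eq_zero (hint j), l3dP_norm hπ hr he, div_lt_one hden]
    exact hj

/-- powers of nonzero elements of `Fq` -/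
theorem l3d_pow {f : ℕ} {x : RF p} (hx : x ∈ Fq p f) (h0 : x ≠ 0) : x ^ (p ^ f - 1) = 1 := by
  have h1 : x ^ (p ^ f) = x := hx
  have h2 : 0 < p ^ f := pow_pos hp.out.pos f
  refine mul_right_cancel₀ h0 ?_
  rw [← pow_succ, Nat.sub_add_cancel h2, h1, one_mul]

/-- a root of a polynomial over an algebraically closed subfield lies in the subfield -/
theorem l3d_root {A : Subfield ℂ_[p]} (hA : IsAlgClosed A) {P : Polynomial A} (hP : P ≠ 0)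
    {y : ℂ_[p]} (hy : P.eval₂ A.subtype y = 0) : ∃ b : A, (b : ℂ_[p]) = y ∧ P.IsRoot b := by
  have hint : IsIntegral A y := by
    have h1 : IsAlgebraic A y := ⟨P, hP, hy⟩
    exact h1.isIntegral
  have h2 : (minpoly A y).degree = 1 :=
    IsAlgClosed.degree_eq_one_of_irreducible A (minpoly.irreducible hint)
  obtain ⟨b, hb⟩ := minpoly.mem_range_of_degree_eq_one A y h2
  have hb' : (b : ℂ_[p]) = y := hb
  refine ⟨b, hb', ?_⟩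
  rw [← hb'] at hy
  have h3 : A.subtype (P.eval b) = 0 := by
    rw [← eval₂_at_apply]
    exact hy
  exact Subtype.ext h3

theorem l3d_trail_pow {R : Type} [CommRing R] [IsDomain R] (G : Polynomial R) (N : ℕ) :
    (G ^ N).trailingCoeff = G.trailingCoeff ^ N := by
  induction N with
  | zero =>
    rw [pow_zero, pow_zero]
    have : (1 : Polynomial R) = C 1 := rfl
    rw [this]
    simp [trailingCoeff]
  | succ N ih => rw [pow_succ, trailingCoeff_mul, ih, pow_succ]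

theorem l3d_lead {U : Polynomial (RF p)} {k : ℕ} (hk : U.coeff k ≠ 0)
    (h : ∀ j, k < j → U.coeff j = 0) : U.leadingCoeff = U.coeff k := by
  have h1 : U.natDegree = k := by
    refine le_antisymm ?_ (le_natDegree_of_ne_zero hk)
    exact natDegree_le_iff_coeff_eq_zero.2 (fun j hj => h j hj)
  rw [leadingCoeff, h1]

theorem l3d_trail {U : Polynomial (RF p)} {k : ℕ} (hk : U.coeff k ≠ 0)
    (h : ∀ j, j < k → U.coeff j = 0) : U.trailingCoeff = U.coeff k := by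
  have h1 : U.natTrailingDegree = k := by
    refine le_antisymm (natTrailingDegree_le_of_ne_zero hk) ?_
    refine le_natTrailingDegree ?_ h
    rintro rfl
    exact hk (coeff_zero k)
  rw [trailingCoeff, h1]

/-- the shifted polynomial has coefficients in `E` -/
theorem l3d_shift {A : Subfield ℂ_[p]} {E : IntermediateField ℚ_[p] ℂ_[p]} {P : Polynomial A}
    (hP : ∀ j, ((P.coeff j : A) : ℂ_[p]) ∈ E) {v : ℂ_[p]} (hv : v ∈ E) (j : ℕ) :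
    ((P.map A.subtype).comp (X + C v)).coeff j ∈ E := by
  have h1 : P.map A.subtype ∈ lifts (algebraMap E ℂ_[p]) := by
    refine (lifts_iff_coeff_lifts (f := algebraMap E ℂ_[p]) _).2 (fun j => ?_)
    rw [coeff_map]
    exact ⟨⟨_, hP j⟩, rfl⟩
  obtain ⟨P', hP'⟩ := (mem_lifts _).1 h1
  have h2 : (P.map A.subtype).comp (X + C v) =
      (P'.comp (X + C (⟨v, hv⟩ : E))).map (algebraMap E ℂ_[p]) := by
    rw [Polynomial.map_comp, hP', Polynomial.map_add, Polynomial.map_X, Polynomial.map_C]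
    rfl
  rw [h2, coeff_map]
  exact SetLike.coe_mem _

theorem l3d_shift_eval {A : Subfield ℂ_[p]} (P : Polynomial A) (v x : ℂ_[p]) :
    ((P.map A.subtype).comp (X + C v)).eval x = P.eval₂ A.subtype (x + v) := by
  rw [eval_comp, eval_add, eval_X, eval_C, eval_map]

/-- comparison of the values at two natural numbers at one of the two discs -/
theorem l3d_disc {n : ℕ} (hP3 : ST_P3) (hEVH : ST_EVH) (pp : PP p n) (K : KD p n) (v ϖ : K.A)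
    (hϖ : ϖ ≠ 0) {E : IntermediateField ℚ_[p] ℂ_[p]} {π : ℂ_[p]} {f : ℕ} (hL : LF E π f)
    (hE : K.E₀ ≤ E) (hv : (v : ℂ_[p]) ∈ E) {κ : ℤ} (hϖκ : (ϖ : ℂ_[p]) = π ^ κ)
    {T : Polynomial (Polynomial (RF p))} {P₀ φ : Polynomial (RF p)} (hP₀ : P₀ ≠ 0)
    (hTP : TP K v ϖ T) (hTC : TC K v ϖ T) (hT : T = C P₀ * φ.map C) {i j : ℕ}
    (hi : φ.eval (i : RF p) ≠ 0) (hj : φ.eval (j : RF p) ≠ 0) {P Q : Polynomial K.A} (hP : P ≠ 0)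
    (hQ : Q ≠ 0)
    (hPQ : K.H (p ^ f - 1) ((i : ℕ) : RatFunc K.A) / K.H (p ^ f - 1) ((j : ℕ) : RatFunc K.A) *
      algebraMap (Polynomial K.A) (RatFunc K.A) Q = algebraMap (Polynomial K.A) (RatFunc K.A) P)
    {R S : Polynomial ℂ_[p]} (hR : R = (P.map K.A.subtype).comp (X + C (v : ℂ_[p])))
    (hS : S = (Q.map K.A.subtype).comp (X + C (v : ℂ_[p])))
    {kR kS : ℕ} {eR eS : ℤ} (hRE : ∀ j, R.coeff j ∈ E) (hSE : ∀ j, S.coeff j ∈ E)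
    (hkR : R.coeff kR ≠ 0) (hkS : S.coeff kS ≠ 0) (heR : ‖R.coeff kR‖ = ‖π‖ ^ eR)
    (heS : ‖S.coeff kS‖ = ‖π‖ ^ eS) {r : ℝ} (hr : r = ‖π‖ ^ κ)
    (hdR : ∀ j, ‖R.coeff j‖ * r ^ j ≤ ‖R.coeff kR‖ * r ^ kR)
    (hdS : ∀ j, ‖S.coeff j‖ * r ^ j ≤ ‖S.coeff kS‖ * r ^ kS) :
    ∃ G₁ G₂ : Polynomial (RF p), G₁ ≠ 0 ∧ G₂ ≠ 0 ∧ (∀ k, G₁.coeff k ∈ Fq p f) ∧
      (∀ k, G₂.coeff k ∈ Fq p f) ∧
      C (φ.eval (i : RF p)) * rd (l3dP π eS κ kS S) * G₂ ^ (p ^ f - 1) =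
        C (φ.eval (j : RF p)) * rd (l3dP π eR κ kR R) * G₁ ^ (p ^ f - 1) := by
  have hπ0 : π ≠ 0 := norm_pos_iff.1 hL.pos
  have hN : 0 < p ^ f - 1 := by
    have : 1 < p ^ f := Nat.one_lt_pow hL.fpos.ne' hp.out.one_lt
    omega
  have hTe : ∀ k : ℕ, T.eval ((k : ℕ) : Polynomial (RF p)) = P₀ * C (φ.eval (k : RF p)) := by
    intro k
    rw [hT, eval_mul, eval_C, eval_map, ← eval₂_at_apply]
    congr 2
  have hTne : ∀ k : ℕ, φ.eval (k : RF p) ≠ 0 → T.eval ((k : ℕ) : Polynomial (RF p)) ≠ 0 := by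
    intro k hk
    rw [hTe]
    exact mul_ne_zero hP₀ (C_ne_zero.2 hk)
  obtain ⟨hRi, hRk, hRk0, -⟩ := l3dP_props hL hRE hr hkR heR hdR
  obtain ⟨hSi, hSk, hSk0, -⟩ := l3dP_props hL hSE hr hkS heS hdS
  have hev : ∀ τ : ℂ_[p], ∀ (e : ℤ) (k : ℕ) (W : Polynomial ℂ_[p]),
      (l3dP π e κ k W).eval ((τ - (v : ℂ_[p])) / (ϖ : ℂ_[p])) =
        π ^ (-(e + κ * k)) * W.eval (τ - v) := by
    intro τ e k W
    rw [l3dP_eval, hϖκ, mul_div_cancel₀ _ (zpow_ne_zero κ hπ0)]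
  have hRdx : Rdx E (π ^ ((eR + κ * kR) - (eS + κ * kS)))
      (K.H (p ^ f - 1) ((i : ℕ) : RatFunc K.A) / K.H (p ^ f - 1) ((j : ℕ) : RatFunc K.A)) v ϖ
      (l3dP π eR κ kR R) (l3dP π eS κ kS S) := by
    refine ⟨hRi, hSi, ?_, ?_, zpow_mem hL.mem _, zpow_ne_zero _ hπ0, ?_⟩
    · intro h0
      rw [h0, coeff_zero] at hRk
      exact hRk0 hRk.symm
    · intro h0
      rw [h0, coeff_zero] at hSk
      exact hSk0 hSk.symm
    · intro τ hτ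
      obtain ⟨e, he, -, -, heP, -⟩ := hEVH p K.A K.acl τ hτ
      have hne : ∀ W : Polynomial K.A, W ≠ 0 → W.eval₂ K.A.subtype τ ≠ 0 := by
        intro W hW
        rw [← heP]
        intro h0
        have h1 : algebraMap (Polynomial K.A) (RatFunc K.A) W = 0 :=
          e.injective (by rw [h0, map_zero])
        exact hW (RatFunc.algebraMap_injective K.A (by rw [h1, map_zero]))
      have hRv : R.eval (τ - v) = P.eval₂ K.A.subtype τ := by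
        rw [hR, l3d_shift_eval, sub_add_cancel]
      have hSv : S.eval (τ - v) = Q.eval₂ K.A.subtype τ := by
        rw [hS, l3d_shift_eval, sub_add_cancel]
      rw [hev, hev, hRv, hSv]
      refine ⟨mul_ne_zero (zpow_ne_zero _ hπ0) (hne P hP),
        mul_ne_zero (zpow_ne_zero _ hπ0) (hne Q hQ), ?_⟩
      have h1 := congrArg e hPQ
      rw [map_mul, heP, heP, he] at h1
      rw [← h1]
      have h2 : π ^ ((eR + κ * kR) - (eS + κ * kS)) * π ^ (-(eR + κ * kR)) =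
          π ^ (-(eS + κ * kS)) := by
        rw [← zpow_add₀ hπ0]
        congr 1
        ring
      rw [← h2]
      ring
  obtain ⟨G₁, G₂, hG₁, hG₂, hc₁, hc₂, heq⟩ := hP3 p n pp K v ϖ hϖ T hTP hTC E π f hL hE hv
    (by rw [hϖκ]; exact zpow_mem hL.mem _) (p ^ f - 1) hN dvd_rfl i j (hTne i hi) (hTne j hj) _ _ _
    hRdx
  refine ⟨G₁, G₂, hG₁, hG₂, hc₁, hc₂, ?_⟩
  rw [hTe, hTe] at heq
  refine mul_left_cancel₀ hP₀ ?_
  linear_combination heq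


/-- comparison of the values at two natural numbers at the two discs -/
theorem l3d_ij {n : ℕ} (hP3 : ST_P3) (hNPW : ST_NPW) (hORD : ST_ORD) (hOVF : ST_OVF)
    (hEVH : ST_EVH) (pp : PP p n) (K : KD p n) (v ϖ₁ ϖ₂ : K.A) (hϖ₁ : ϖ₁ ≠ 0)
    (hlt : ‖(ϖ₁ : ℂ_[p])‖ < ‖(ϖ₂ : ℂ_[p])‖) {E : IntermediateField ℚ_[p] ℂ_[p]} {π : ℂ_[p]} {f : ℕ}
    (hL : LF E π f) (hE : K.E₀ ≤ E) (hv : (v : ℂ_[p]) ∈ E) {κ₁ κ₂ : ℤ}
    (hκ₁ : (ϖ₁ : ℂ_[p]) = π ^ κ₁) (hκ₂ : (ϖ₂ : ℂ_[p]) = π ^ κ₂)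
    (hloc : ∀ (b : K.A) (i : ℕ), i < 4 * n ^ 2 + 2 * n →
      ordv K.A b (K.H (p ^ f - 1) ((i : ℕ) : RatFunc K.A)) ≠ 0 →
      ‖(b : ℂ_[p]) - v‖ ≤ ‖(ϖ₁ : ℂ_[p])‖ ∨ ‖(ϖ₂ : ℂ_[p])‖ ≤ ‖(b : ℂ_[p]) - v‖)
    {T₁ T₂ : Polynomial (Polynomial (RF p))} {P₁ P₂ φ₁ φ₂ : Polynomial (RF p)} (hP₁ : P₁ ≠ 0)
    (hP₂ : P₂ ≠ 0) (hTP₁ : TP K v ϖ₁ T₁) (hTC₁ : TC K v ϖ₁ T₁) (hT₁ : T₁ = C P₁ * φ₁.map C)
    (hTP₂ : TP K v ϖ₂ T₂) (hTC₂ : TC K v ϖ₂ T₂) (hT₂ : T₂ = C P₂ * φ₂.map C) {i j : ℕ}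
    (hi : i < 4 * n ^ 2 + 2 * n) (hj : j < 4 * n ^ 2 + 2 * n)
    (hi₁ : φ₁.eval (i : RF p) ≠ 0) (hj₁ : φ₁.eval (j : RF p) ≠ 0)
    (hi₂ : φ₂.eval (i : RF p) ≠ 0) (hj₂ : φ₂.eval (j : RF p) ≠ 0) :
    φ₁.eval (i : RF p) * φ₂.eval (j : RF p) = φ₁.eval (j : RF p) * φ₂.eval (i : RF p) := by
  have hN : 0 < p ^ f - 1 := by
    have : 1 < p ^ f := Nat.one_lt_pow hL.fpos.ne' hp.out.one_lt
    omega
  have hϖ₂ : ϖ₂ ≠ 0 := by
    rintro rfl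
    have : ‖(((0 : K.A) : K.A) : ℂ_[p])‖ = 0 := by
      rw [ZeroMemClass.coe_zero, norm_zero]
    rw [this] at hlt
    exact absurd hlt (not_lt.2 (norm_nonneg _))
  have hr₁ : 0 < ‖(ϖ₁ : ℂ_[p])‖ := norm_pos_iff.2 (fun h => hϖ₁ (Subtype.ext h))
  obtain ⟨F, hF⟩ := hOVF p K.A E
  have hne : ∀ k : ℕ, K.H (p ^ f - 1) ((k : ℕ) : RatFunc K.A) ≠ 0 := fun k => K.H0 _ _ hN
  have hov : ∀ k : ℕ, Ov K.A E (K.H (p ^ f - 1) ((k : ℕ) : RatFunc K.A)) := fun k =>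
    K.Hdef E hL.fin hE _ _ hN ((hF _).1 (natCast_mem F k))
  obtain ⟨P, Q, hP0, hQ0, hcop, hPE, hQE, hPQ⟩ := l3d_coprime K.A E
    (K.H (p ^ f - 1) ((i : ℕ) : RatFunc K.A) / K.H (p ^ f - 1) ((j : ℕ) : RatFunc K.A))
    (div_ne_zero (hne i) (hne j)) ((hF _).1 (div_mem ((hF _).2 (hov i)) ((hF _).2 (hov j))))
  obtain ⟨o1, o2, -, -, o5⟩ := hORD p K.A
  have hinj : Function.Injective (algebraMap (Polynomial K.A) (RatFunc K.A)) :=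
    RatFunc.algebraMap_injective K.A
  -- the location of the roots
  have hordPQ : ∀ b : K.A, (P.rootMultiplicity b : ℤ) - (Q.rootMultiplicity b : ℤ) =
      ordv K.A b (K.H (p ^ f - 1) ((i : ℕ) : RatFunc K.A)) -
        ordv K.A b (K.H (p ^ f - 1) ((j : ℕ) : RatFunc K.A)) := by
    intro b
    have e1 := o1 b _ _ (div_ne_zero (hne i) (hne j))
      (show algebraMap (Polynomial K.A) (RatFunc K.A) Q ≠ 0 from
        fun h0 => hQ0 (hinj (by rw [h0, map_zero])))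
    rw [hPQ, o5 b P hP0, o5 b Q hQ0, div_eq_mul_inv,
      o1 b _ _ (hne i) (inv_ne_zero (hne j)), o2 b _ (hne j)] at e1
    omega
  have hcopr : ∀ b : K.A, P.IsRoot b → Q.IsRoot b → False := by
    intro b h1 h2
    obtain ⟨x, y, hxy⟩ := hcop
    have h3 := congrArg (eval b) hxy
    rw [eval_add, eval_mul, eval_mul, h1.eq_zero, h2.eq_zero, mul_zero, mul_zero, add_zero,
      eval_one] at h3
    exact zero_ne_one h3
  have hlocb : ∀ b : K.A, (P.IsRoot b ∨ Q.IsRoot b) →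
      ‖(b : ℂ_[p]) - v‖ ≤ ‖(ϖ₁ : ℂ_[p])‖ ∨ ‖(ϖ₂ : ℂ_[p])‖ ≤ ‖(b : ℂ_[p]) - v‖ := by
    intro b hb
    have h1 : (P.rootMultiplicity b : ℤ) - (Q.rootMultiplicity b : ℤ) ≠ 0 := by
      rcases hb with hb | hb
      · have h2 : 0 < P.rootMultiplicity b := (rootMultiplicity_pos hP0).2 hb
        have h3 : Q.rootMultiplicity b = 0 :=
          rootMultiplicity_eq_zero (fun h => hcopr b hb h)
        omega
      · have h2 : 0 < Q.rootMultiplicity b := (rootMultiplicity_pos hQ0).2 hb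
        have h3 : P.rootMultiplicity b = 0 :=
          rootMultiplicity_eq_zero (fun h => hcopr b h hb)
        omega
    rw [hordPQ] at h1
    by_cases h4 : ordv K.A b (K.H (p ^ f - 1) ((i : ℕ) : RatFunc K.A)) = 0
    · refine hloc b j hj (fun h5 => h1 ?_)
      rw [h4, h5, sub_zero]
    · exact hloc b i hi h4
  have hroots : ∀ W : Polynomial K.A, W ≠ 0 → (∀ b, W.IsRoot b → P.IsRoot b ∨ Q.IsRoot b) →
      ∀ x : ℂ_[p], ((W.map K.A.subtype).comp (X + C (v : ℂ_[p]))).eval x = 0 →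
      ‖x‖ ≤ ‖(ϖ₁ : ℂ_[p])‖ ∨ ‖(ϖ₂ : ℂ_[p])‖ ≤ ‖x‖ := by
    intro W hW hWr x hx
    rw [l3d_shift_eval] at hx
    obtain ⟨b, hb, hbr⟩ := l3d_root K.acl hW hx
    have h1 := hlocb b (hWr b hbr)
    rw [hb, add_sub_cancel_right] at h1
    exact h1
  have hcne : ∀ W : Polynomial K.A, W ≠ 0 →
      (W.map K.A.subtype).comp (X + C (v : ℂ_[p])) ≠ 0 := by
    intro W hW h0
    have h1 : (W.map K.A.subtype).comp (X + C (v : ℂ_[p])) =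
        taylor (v : ℂ_[p]) (W.map K.A.subtype) := rfl
    rw [h1, taylor_eq_zero] at h0
    exact hW ((Polynomial.map_eq_zero K.A.subtype).1 h0)
  set R : Polynomial ℂ_[p] := (P.map K.A.subtype).comp (X + C (v : ℂ_[p])) with hR
  set S : Polynomial ℂ_[p] := (Q.map K.A.subtype).comp (X + C (v : ℂ_[p])) with hS
  obtain ⟨kR, hkR, hR1, hR1s, hR2, hR2s⟩ := hNPW p R ‖(ϖ₁ : ℂ_[p])‖ ‖(ϖ₂ : ℂ_[p])‖ (hcne P hP0) hr₁
    hlt (hroots P hP0 (fun b hb => Or.inl hb))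
  obtain ⟨kS, hkS, hS1, hS1s, hS2, hS2s⟩ := hNPW p S ‖(ϖ₁ : ℂ_[p])‖ ‖(ϖ₂ : ℂ_[p])‖ (hcne Q hQ0) hr₁
    hlt (hroots Q hQ0 (fun b hb => Or.inr hb))
  have hRE : ∀ j, R.coeff j ∈ E := l3d_shift hPE hv
  have hSE : ∀ j, S.coeff j ∈ E := l3d_shift hQE hv
  obtain ⟨eR, heR⟩ := hL.val _ (hRE kR) hkR
  obtain ⟨eS, heS⟩ := hL.val _ (hSE kS) hkS
  have hn₁ : ‖(ϖ₁ : ℂ_[p])‖ = ‖π‖ ^ κ₁ := by rw [hκ₁, norm_zpow]
  have hn₂ : ‖(ϖ₂ : ℂ_[p])‖ = ‖π‖ ^ κ₂ := by rw [hκ₂, norm_zpow]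
  obtain ⟨G₁, G₂, hG₁, hG₂, hc₁, hc₂, heq₁⟩ := l3d_disc hP3 hEVH pp K v ϖ₁ hϖ₁ hL hE hv hκ₁ hP₁ hTP₁
    hTC₁ hT₁ hi₁ hj₁ hP0 hQ0 hPQ hR hS hRE hSE hkR hkS heR heS hn₁ hR1 hS1
  obtain ⟨G₃, G₄, hG₃, hG₄, hc₃, hc₄, heq₂⟩ := l3d_disc hP3 hEVH pp K v ϖ₂ hϖ₂ hL hE hv hκ₂ hP₂ hTP₂
    hTC₂ hT₂ hi₂ hj₂ hP0 hQ0 hPQ hR hS hRE hSE hkR hkS heR heS hn₂ hR2 hS2
  obtain ⟨-, a1, a2, a3⟩ := l3dP_props hL hRE hn₁ hkR heR hR1
  obtain ⟨-, b1, b2, b3⟩ := l3dP_props hL hSE hn₁ hkS heS hS1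
  obtain ⟨-, c1, -, c3⟩ := l3dP_props hL hRE hn₂ hkR heR hR2
  obtain ⟨-, d1, -, d3⟩ := l3dP_props hL hSE hn₂ hkS heS hS2
  have L1 : (rd (l3dP π eR κ₁ kR R)).leadingCoeff = res (R.coeff kR / π ^ eR) := by
    rw [l3d_lead (k := kR) (by rw [a1]; exact a2) (fun j hj => a3 j (hR1s j hj)), a1]
  have L2 : (rd (l3dP π eS κ₁ kS S)).leadingCoeff = res (S.coeff kS / π ^ eS) := by
    rw [l3d_lead (k := kS) (by rw [b1]; exact b2) (fun j hj => b3 j (hS1s j hj)), b1]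
  have L3 : (rd (l3dP π eR κ₂ kR R)).trailingCoeff = res (R.coeff kR / π ^ eR) := by
    rw [l3d_trail (k := kR) (by rw [c1]; exact a2) (fun j hj => c3 j (hR2s j hj)), c1]
  have L4 : (rd (l3dP π eS κ₂ kS S)).trailingCoeff = res (S.coeff kS / π ^ eS) := by
    rw [l3d_trail (k := kS) (by rw [d1]; exact b2) (fun j hj => d3 j (hS2s j hj)), d1]
  have hlead : ∀ G : Polynomial (RF p), G ≠ 0 → (∀ k, G.coeff k ∈ Fq p f) →
      (G ^ (p ^ f - 1)).leadingCoeff = 1 := by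
    intro G hG hc
    rw [leadingCoeff_pow]
    exact l3d_pow (hc _) (leadingCoeff_ne_zero.2 hG)
  have htrail : ∀ G : Polynomial (RF p), G ≠ 0 → (∀ k, G.coeff k ∈ Fq p f) →
      (G ^ (p ^ f - 1)).trailingCoeff = 1 := by
    intro G hG hc
    rw [l3d_trail_pow]
    exact l3d_pow (hc _) (trailingCoeff_nonzero_iff_nonzero.2 hG)
  have hCt : ∀ x : RF p, (C x).trailingCoeff = x := by
    intro x
    rw [trailingCoeff, natTrailingDegree_C, coeff_C_zero]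
  have E1 := congrArg leadingCoeff heq₁
  rw [leadingCoeff_mul, leadingCoeff_mul, leadingCoeff_mul, leadingCoeff_mul, leadingCoeff_C,
    leadingCoeff_C, hlead G₂ hG₂ hc₂, hlead G₁ hG₁ hc₁, L1, L2, mul_one, mul_one] at E1
  have E2 := congrArg trailingCoeff heq₂
  rw [trailingCoeff_mul, trailingCoeff_mul, trailingCoeff_mul, trailingCoeff_mul, hCt, hCt,
    htrail G₄ hG₄ hc₄, htrail G₃ hG₃ hc₃, L3, L4, mul_one, mul_one] at E2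
  refine mul_right_cancel₀ (mul_ne_zero a2 b2) ?_
  linear_combination (φ₂.eval (j : RF p) * res (R.coeff kR / π ^ eR)) * E1 -
    (φ₁.eval (j : RF p) * res (R.coeff kR / π ^ eR)) * E2

/-- two polynomials with proportional values at sufficiently many natural numbers -/
theorem l3d_prop {n : ℕ} (pp : PP p n) {φ₁ φ₂ : Polynomial (RF p)} (h₁ : φ₁ ≠ 0) (h₂ : φ₂ ≠ 0)
    (hd₁ : φ₁.natDegree ≤ n) (hd₂ : φ₂.natDegree ≤ n)
    (h : ∀ i j : ℕ, i < 4 * n ^ 2 + 2 * n → j < 4 * n ^ 2 + 2 * n →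
      φ₁.eval (i : RF p) ≠ 0 → φ₁.eval (j : RF p) ≠ 0 →
      φ₂.eval (i : RF p) ≠ 0 → φ₂.eval (j : RF p) ≠ 0 →
      φ₁.eval (i : RF p) * φ₂.eval (j : RF p) = φ₁.eval (j : RF p) * φ₂.eval (i : RF p)) :
    ∃ s : RF p, s ≠ 0 ∧ φ₂ = C s * φ₁ := by
  have hn := pp.npos
  have hbig := pp.big
  have hinj : Function.Injective (fun i : Fin (4 * n ^ 2 + 2 * n) => ((i : ℕ) : RF p)) := by
    intro i j hij
    have hi := i.2
    have hj := j.2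
    exact Fin.ext (CharP.natCast_injOn_Iio (RF p) p (show (i : ℕ) ∈ Set.Iio p from
      Set.mem_Iio.2 (by omega)) (show (j : ℕ) ∈ Set.Iio p from Set.mem_Iio.2 (by omega)) hij)
  have hsq : n ≤ n ^ 2 := by nlinarith
  have hdp : (φ₁ * φ₂).natDegree ≤ 2 * n := by
    refine natDegree_mul_le.trans ?_
    omega
  have hex : ∃ j : ℕ, j < 4 * n ^ 2 + 2 * n ∧ (φ₁ * φ₂).eval (j : RF p) ≠ 0 := by
    by_contra hcon
    push Not at hcon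
    refine mul_ne_zero h₁ h₂ (eq_zero_of_natDegree_lt_card_of_eval_eq_zero (φ₁ * φ₂) hinj
      (fun i => hcon i i.2) ?_)
    rw [Fintype.card_fin]
    omega
  obtain ⟨j, hj, hjne⟩ := hex
  rw [eval_mul] at hjne
  have hj₁ := left_ne_zero_of_mul hjne
  have hj₂ := right_ne_zero_of_mul hjne
  have hD : C (φ₂.eval (j : RF p)) * φ₁ - C (φ₁.eval (j : RF p)) * φ₂ = 0 := by
    have hDD : (C (φ₂.eval (j : RF p)) * φ₁ - C (φ₁.eval (j : RF p)) * φ₂) * (φ₁ * φ₂) = 0 := by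
      refine eq_zero_of_natDegree_lt_card_of_eval_eq_zero _ hinj (fun i => ?_) ?_
      · rw [eval_mul, eval_sub, eval_mul, eval_mul, eval_C, eval_C, eval_mul]
        by_cases hi₁ : φ₁.eval ((i : ℕ) : RF p) = 0
        · simp only [hi₁, zero_mul, mul_zero]
        by_cases hi₂ : φ₂.eval ((i : ℕ) : RF p) = 0
        · simp only [hi₂, mul_zero]
        have h1 := h i j i.2 hj hi₁ hj₁ hi₂ hj₂
        have h2 : φ₂.eval (j : RF p) * φ₁.eval ((i : ℕ) : RF p) -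
            φ₁.eval (j : RF p) * φ₂.eval ((i : ℕ) : RF p) = 0 := by
          linear_combination h1
        rw [h2, zero_mul]
      · rw [Fintype.card_fin]
        have h1 : (C (φ₂.eval (j : RF p)) * φ₁ - C (φ₁.eval (j : RF p)) * φ₂).natDegree ≤ n := by
          refine (natDegree_sub_le _ _).trans (max_le ?_ ?_)
          · exact (natDegree_C_mul_le _ _).trans hd₁
          · exact (natDegree_C_mul_le _ _).trans hd₂
        have h2 := natDegree_mul_le (p := C (φ₂.eval (j : RF p)) * φ₁ - C (φ₁.eval (j : RF p)) * φ₂)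
          (q := φ₁ * φ₂)
        omega
    rcases mul_eq_zero.1 hDD with h1 | h1
    · exact h1
    · exact absurd h1 (mul_ne_zero h₁ h₂)
  refine ⟨φ₂.eval (j : RF p) / φ₁.eval (j : RF p), div_ne_zero hj₂ hj₁, ?_⟩
  refine mul_left_cancel₀ (C_ne_zero.2 hj₁) ?_
  rw [← mul_assoc, ← C_mul, mul_div_cancel₀ _ hj₁]
  exact (sub_eq_zero.1 hD).symm

theorem l3d_CT {n : ℕ} {K : KD p n} {a ϖ : ℂ_[p]} {φ : Polynomial (RF p)} (h : CT K a ϖ φ) :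
    φ ≠ 0 ∧ φ.natDegree ≤ n := by
  obtain ⟨h1, h2, -⟩ := h
  refine ⟨fun h0 => h1 (by rw [h0, Polynomial.map_zero]), ?_⟩
  rwa [natDegree_map_eq_of_injective C_injective] at h2

end

theorem st_L3D (hP3 : ST_P3) (hDIC : ST_DIC) (hNPW : ST_NPW) (hRAMX : ST_RAMX) (hORD : ST_ORD)
    (hOVF : ST_OVF) (hEVH : ST_EVH) : ST_L3D := by
  intro p n _ pp K v ϖ₁ ϖ₂ hϖ₁ hlt E₁ π₁ f₁ hL hπ₁ hE hv hloc φ₁ φ₂ hC₁ hC₂
  have hacl : IsAlgClosed K.A := K.acl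
  obtain ⟨D1, -, -, D4⟩ := hDIC p n pp K
  have hϖ₁' : (ϖ₁ : ℂ_[p]) ≠ 0 := fun h => hϖ₁ (Subtype.ext h)
  have hϖ₂' : (ϖ₂ : ℂ_[p]) ≠ 0 := by
    rw [← norm_pos_iff]
    exact (norm_pos_iff.2 hϖ₁').trans hlt
  have hϖ₂ : ϖ₂ ≠ 0 := fun h => hϖ₂' (by rw [h]; rfl)
  obtain ⟨d₁, j₁, hd₁, hj₁⟩ := l3d_norm hL (K.alg _ ϖ₁.2) hϖ₁'
  obtain ⟨d₂, j₂, hd₂, hj₂⟩ := l3d_norm hL (K.alg _ ϖ₂.2) hϖ₂'
  obtain ⟨ρ, hρ⟩ := IsAlgClosed.exists_pow_nat_eq (⟨π₁, hπ₁⟩ : K.A) (Nat.mul_pos hd₁ hd₂)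
  have hρ' : (ρ : ℂ_[p]) ^ (d₁ * d₂) = π₁ := congrArg Subtype.val hρ
  obtain ⟨E₂, hE₂, hL₂⟩ := hRAMX p E₁ π₁ f₁ hL f₁ (d₁ * d₂) ρ dvd_rfl hL.fpos
    (Nat.mul_pos hd₁ hd₂) hρ'
  have hρ0 : (ρ : ℂ_[p]) ≠ 0 := norm_pos_iff.1 hL₂.pos
  have hnorm : ‖π₁‖ = ‖(ρ : ℂ_[p])‖ ^ ((d₁ : ℤ) * d₂) := by
    rw [← hρ', norm_pow, ← Nat.cast_mul, zpow_natCast]
  have hpos := hL₂.pos
  have hn₁ : ‖(ϖ₁ : ℂ_[p])‖ = ‖((ρ ^ ((d₂ : ℤ) * j₁) : K.A) : ℂ_[p])‖ := by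
    rw [show ((ρ ^ ((d₂ : ℤ) * j₁) : K.A) : ℂ_[p]) = (ρ : ℂ_[p]) ^ ((d₂ : ℤ) * j₁) from
      map_zpow₀ K.A.subtype ρ _, norm_zpow]
    refine (pow_left_inj₀ (norm_nonneg _) (zpow_nonneg hpos.le _) hd₁.ne').1 ?_
    rw [hj₁, hnorm, ← zpow_natCast, ← zpow_mul, ← zpow_mul]
    congr 1
    ring
  have hn₂ : ‖(ϖ₂ : ℂ_[p])‖ = ‖((ρ ^ ((d₁ : ℤ) * j₂) : K.A) : ℂ_[p])‖ := by
    rw [show ((ρ ^ ((d₁ : ℤ) * j₂) : K.A) : ℂ_[p]) = (ρ : ℂ_[p]) ^ ((d₁ : ℤ) * j₂) from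
      map_zpow₀ K.A.subtype ρ _, norm_zpow]
    refine (pow_left_inj₀ (norm_nonneg _) (zpow_nonneg hpos.le _) hd₂.ne').1 ?_
    rw [hj₂, hnorm, ← zpow_natCast, ← zpow_mul, ← zpow_mul]
    congr 1
    ring
  have hρne : ρ ≠ 0 := fun h => hρ0 (by rw [h]; rfl)
  have hC₁' := (D1 v ϖ₁ v (ρ ^ ((d₂ : ℤ) * j₁)) hϖ₁ (zpow_ne_zero _ hρne) hn₁
    (by rw [sub_self, norm_zero]; exact norm_nonneg _) φ₁ hC₁).1
  have hC₂' := (D1 v ϖ₂ v (ρ ^ ((d₁ : ℤ) * j₂)) hϖ₂ (zpow_ne_zero _ hρne) hn₂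
    (by rw [sub_self, norm_zero]; exact norm_nonneg _) φ₂ hC₂).1
  obtain ⟨T₁, P₁, hP₁, hTP₁, hTC₁, hT₁⟩ := D4 v _ φ₁ (zpow_ne_zero _ hρne) hC₁'
  obtain ⟨T₂, P₂, hP₂, hTP₂, hTC₂, hT₂⟩ := D4 v _ φ₂ (zpow_ne_zero _ hρne) hC₂'
  have hE₂' : K.E₀ ≤ E₂ := hE.trans hE₂
  have hv₂ : (v : ℂ_[p]) ∈ E₂ := hE₂ hv
  rw [hn₁, hn₂] at hlt
  rw [hn₁, hn₂] at hloc
  refine l3d_prop pp (l3d_CT hC₁).1 (l3d_CT hC₂).1 (l3d_CT hC₁).2 (l3d_CT hC₂).2 ?_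
  intro i j hi hj hi₁ hj₁ hi₂ hj₂
  exact l3d_ij hP3 hNPW hORD hOVF hEVH pp K v _ _ (zpow_ne_zero _ hρne) hlt hL₂ hE₂' hv₂
    (map_zpow₀ K.A.subtype ρ _) (map_zpow₀ K.A.subtype ρ _) hloc hP₁ hP₂ hTP₁ hTC₁ hT₁ hTP₂ hTC₂ hT₂
    hi hj hi₁ hj₁ hi₂ hj₂


end Pool.Agent.Helper60.FF
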