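import Pool.Agent.Helper60.FF.DefsA

set_option autoImplicit false

namespace Pool.Agent.Helper60.FF

open Polynomial

/-- degree of a determinant with bounds for the degrees in each row -/
theorem lap_det_le {R : Type} [CommRing R] {k : ℕ} (M : Matrix (Fin k) (Fin k) (Polynomial R))
    (b : Fin k → ℕ) (h : ∀ i j, (M i j).natDegree ≤ b i) : M.det.natDegree ≤ ∑ j, b j := by
  rw [← Matrix.det_transpose, Matrix.det_apply']
  refine natDegree_sum_le_of_forall_le _ _ fun σ _ => ?_
  refine (natDegree_mul_le).trans ?_
  rw [natDegree_intCast, zero_add]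
  refine (natDegree_prod_le _ _).trans ?_
  exact Finset.sum_le_sum fun j _ => h _ _

/-- choice of `m` independent rows -/
theorem lap_rows (F : Type) [Field F] (m : ℕ) (ι : Type) [Fintype ι]
    (M : Matrix ι (Fin (m + 1)) F)
    (h : ∀ u v : Fin (m + 1) → F, (∀ i, ∑ j, M i j * u j = 0) →
      (∀ i, ∑ j, M i j * v j = 0) → u ≠ 0 → ∃ s : F, v = s • u) :
    ∃ f : Fin m → ι, LinearIndependent F (fun i => M (f i)) := by
  classical
  have hker : Module.finrank F (LinearMap.ker M.mulVecLin) ≤ 1 := by
    by_cases h0 : ∃ u : LinearMap.ker M.mulVecLin, u ≠ 0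
    · obtain ⟨u, hu⟩ := h0
      refine finrank_le_one u fun v => ?_
      obtain ⟨s, hs⟩ := h u.1 v.1
        (fun i => congrFun (LinearMap.mem_ker.1 u.2) i)
        (fun i => congrFun (LinearMap.mem_ker.1 v.2) i)
        (fun h1 => hu (Subtype.ext h1))
      exact ⟨s, Subtype.ext hs.symm⟩
    · push Not at h0
      have : Subsingleton (LinearMap.ker M.mulVecLin) := ⟨fun a b => by rw [h0 a, h0 b]⟩
      rw [Module.finrank_zero_of_subsingleton]
      exact zero_le_one
  have hrank : m ≤ Module.finrank F (Submodule.span F (Set.range M.row)) := by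
    rw [← Matrix.rank_eq_finrank_span_row, Matrix.rank]
    have := LinearMap.finrank_range_add_finrank_ker M.mulVecLin
    rw [Module.finrank_fin_fun] at this
    omega
  obtain ⟨κ, a, ha, hspan, hli⟩ := exists_linearIndependent' F M.row
  have : Finite κ := Finite.of_injective a ha
  have := Fintype.ofFinite κ
  have hcard : Fintype.card κ = Module.finrank F (Submodule.span F (Set.range M.row)) := by
    rw [← hspan, finrank_span_eq_card hli]
  have hle : Fintype.card (Fin m) ≤ Fintype.card κ := by
    rw [Fintype.card_fin, hcard]
    exact hrank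
  obtain ⟨e⟩ := Function.Embedding.nonempty_of_card_le hle
  exact ⟨fun i => a (e i), hli.comp e e.injective⟩

theorem st_LAP : ST_LAP := by
  intro F _ m ι _ M z₁ hdeg h
  classical
  obtain ⟨f, hf⟩ := lap_rows F m ι (fun i j => (M i j).eval z₁) h
  -- a unit vector outside of the span
  have ht : ∃ t : Fin (m + 1), (Pi.single t 1 : Fin (m + 1) → F) ∉
      Submodule.span F (Set.range fun i => fun j => (M (f i) j).eval z₁) := by
    by_contra hcon
    push Not at hcon
    have htop : Submodule.span F (Set.range fun i => fun j => (M (f i) j).eval z₁) = ⊤ := by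
      rw [eq_top_iff, ← (Pi.basisFun F (Fin (m + 1))).span_eq, Submodule.span_le]
      rintro _ ⟨t, rfl⟩
      simpa using hcon t
    have h1 := finrank_span_eq_card hf
    rw [htop, finrank_top, Module.finrank_fin_fun, Fintype.card_fin] at h1
    omega
  obtain ⟨t, ht⟩ := ht
  set S : Matrix (Fin (m + 1)) (Fin (m + 1)) (Polynomial F) := Matrix.of fun i j =>
    (Fin.snoc (α := fun _ => Polynomial F) (fun i : Fin m => M (f i) j)
      (if t = j then (1 : Polynomial F) else 0) : Fin (m + 1) → Polynomial F) i with hS
  have hSc : ∀ (i : Fin m) (j : Fin (m + 1)), S i.castSucc j = M (f i) j := fun i j => by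
    rw [hS, Matrix.of_apply, Fin.snoc_castSucc]
  have hSl : ∀ (j : Fin (m + 1)), S (Fin.last m) j = if t = j then 1 else 0 := fun j => by
    rw [hS, Matrix.of_apply, Fin.snoc_last]
  have hdet : ∀ z : F, S.det.eval z = (S.map (eval z)).det := fun z => by
    have := RingHom.map_det (evalRingHom z) S
    simpa using this
  have hadj : ∀ (z : F) (i j : Fin (m + 1)), (S.adjugate i j).eval z = (S.map (eval z)).adjugate i j :=
    fun z i j => by
      have := congrFun (congrFun (RingHom.map_adjugate (evalRingHom z) S) i) j
      simpa using this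
  have hb : ∑ i : Fin (m + 1), (if i = Fin.last m then 0 else 1) ≤ m := by
    rw [Fin.sum_univ_castSucc]
    simp [Fin.castSucc_ne_last]
  refine ⟨fun j => S.adjugate j (Fin.last m), S.det, ?_, ?_, ?_, ?_⟩
  · intro h0
    have h1 : (S.map (eval z₁)).det = 0 := by rw [← hdet, h0, eval_zero]
    have h2 : LinearIndependent F (S.map (eval z₁)).row := by
      have h3 : (S.map (eval z₁)).row = Fin.snoc (α := fun _ => Fin (m + 1) → F)
          (fun i : Fin m => fun j => (M (f i) j).eval z₁) (Pi.single t 1) := by
        funext i
        induction i using Fin.lastCases with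
        | last =>
          rw [Fin.snoc_last]
          funext j
          show (S (Fin.last m) j).eval z₁ = _
          rw [hSl, Pi.single_apply]
          by_cases htj : t = j
          · rw [if_pos htj, if_pos htj.symm, eval_one]
          · rw [if_neg htj, if_neg (fun h => htj h.symm), eval_zero]
        | cast i =>
          rw [Fin.snoc_castSucc]
          funext j
          show (S i.castSucc j).eval z₁ = _
          rw [hSc]
      rw [h3]
      exact linearIndependent_finSnoc.2 ⟨hf, ht⟩
    rw [Matrix.linearIndependent_rows_iff_isUnit, Matrix.isUnit_iff_isUnit_det, h1] at h2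
    exact not_isUnit_zero h2
  · refine (lap_det_le S (fun i => if i = Fin.last m then 0 else 1) ?_).trans hb
    intro i j
    induction i using Fin.lastCases with
    | last =>
      rw [hSl]
      split_ifs <;> simp
    | cast i =>
      rw [hSc, if_neg (Fin.castSucc_ne_last i)]
      exact hdeg _ _
  · intro j
    show (S.adjugate j (Fin.last m)).natDegree ≤ m
    rw [Matrix.adjugate_apply]
    refine (lap_det_le _ (fun i => if i = Fin.last m then 0 else 1) ?_).trans hb
    intro i k
    induction i using Fin.lastCases with
    | last =>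
      rw [Matrix.updateRow_self, Pi.single_apply]
      split_ifs <;> simp
    | cast i =>
      rw [Matrix.updateRow_ne (Fin.castSucc_ne_last i), hSc, if_neg (Fin.castSucc_ne_last i)]
      exact hdeg _ _
  · intro z hz v hv
    have h1 : (S.map (eval z)).mulVec v = Pi.single (Fin.last m) (v t) := by
      funext i
      induction i using Fin.lastCases with
      | last =>
        rw [Pi.single_eq_same, Matrix.mulVec, dotProduct]
        simp [Matrix.map_apply, hSl, apply_ite (eval z)]
      | cast i =>
        rw [Pi.single_eq_of_ne (Fin.castSucc_ne_last i), Matrix.mulVec, dotProduct]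
        simpa [Matrix.map_apply, hSc] using hv (f i)
    have h2 : ((S.map (eval z)).adjugate * (S.map (eval z))).mulVec v =
        (S.map (eval z)).adjugate.mulVec (Pi.single (Fin.last m) (v t)) := by
      rw [← Matrix.mulVec_mulVec, h1]
    rw [Matrix.adjugate_mul, ← hdet] at h2
    refine ⟨v t / S.det.eval z, fun j => ?_⟩
    have h3 := congrFun h2 j
    rw [Matrix.smul_mulVec, Matrix.one_mulVec, Pi.smul_apply, smul_eq_mul,
      Matrix.mulVec_single] at h3
    simp only [Matrix.col_apply, Pi.smul_apply, MulOpposite.smul_eq_mul_unop,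
      MulOpposite.unop_op] at h3
    rw [hadj, div_mul_eq_mul_div, eq_div_iff hz, mul_comm (v j), h3, mul_comm]

end Pool.Agent.Helper60.FF
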