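import Pool.Agent.Helper60.FF.DefsA

set_option autoImplicit false

namespace Pool.Agent.Helper60.FF

open Polynomial

/-- degree of a determinant with bounds for the degrees in each column -/
theorem resb_det_le {R : Type} [CommRing R] {k : ℕ} (M : Matrix (Fin k) (Fin k) (Polynomial R))
    (b : Fin k → ℕ) (h : ∀ i j, (M i j).natDegree ≤ b j) : M.det.natDegree ≤ ∑ j, b j := by
  rw [Matrix.det_apply']
  refine natDegree_sum_le_of_forall_le _ _ fun σ _ => ?_
  refine (natDegree_mul_le).trans ?_
  rw [natDegree_intCast, zero_add]
  refine (natDegree_prod_le _ _).trans ?_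
  exact Finset.sum_le_sum fun j _ => h _ _

/-- the fraction field step -/
theorem resb_coprime {F : Type} [Field F] (S T : Polynomial (Polynomial F)) (hS : S ≠ 0)
    (h : ∀ G : Polynomial (Polynomial F), G ∣ S → G ∣ T → G.natDegree = 0) :
    IsCoprime (S.map (algebraMap (Polynomial F) (FractionRing (Polynomial F))))
      (T.map (algebraMap (Polynomial F) (FractionRing (Polynomial F)))) := by
  classical
  set K := FractionRing (Polynomial F) with hK
  have hinj : Function.Injective (algebraMap (Polynomial F) K) :=
    IsFractionRing.injective (Polynomial F) K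
  have hSK : S.map (algebraMap (Polynomial F) K) ≠ 0 := by
    rwa [Ne, Polynomial.map_eq_zero_iff hinj]
  refine isCoprime_of_prime_dvd (by tauto) ?_
  intro q hq hqS hqT
  -- a primitive polynomial proportional to `q`
  let _ : NormalizedGCDMonoid (Polynomial F) := Nonempty.some inferInstance
  obtain ⟨b, hb, hbq⟩ := IsLocalization.integerNormalization_spec
    (nonZeroDivisors (Polynomial F)) (S := K) q
  set q' := IsLocalization.integerNormalization (nonZeroDivisors (Polynomial F)) q with hq'
  have hb0 : algebraMap (Polynomial F) K b ≠ 0 := by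
    rw [Ne, map_eq_zero_iff _ hinj]
    exact nonZeroDivisors.ne_zero hb
  have hbq' : q'.map (algebraMap (Polynomial F) K) = C (algebraMap (Polynomial F) K b) * q := by
    rw [hbq, ← algebraMap_smul K b q, smul_eq_C_mul]
  have hq0 : q ≠ 0 := hq.ne_zero
  have hdvd : ∀ W : Polynomial (Polynomial F), q ∣ W.map (algebraMap (Polynomial F) K) →
      q'.primPart ∣ W := by
    intro W hW
    refine (isPrimitive_primPart q').dvd_of_fraction_map_dvd_fraction_map (K := K) ?_
    have h1 : q'.primPart.map (algebraMap (Polynomial F) K) ∣ C (algebraMap (Polynomial F) K b) * q := by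
      rw [← hbq']
      exact Polynomial.map_dvd _ (Dvd.intro_left _ q'.eq_C_content_mul_primPart.symm)
    have h2 : IsUnit (C (algebraMap (Polynomial F) K b)) := isUnit_C.2 (IsUnit.mk0 _ hb0)
    exact (h2.dvd_mul_left.1 h1).trans hW
  have hG := h _ (hdvd S hqS) (hdvd T hqT)
  rw [natDegree_primPart] at hG
  have h3 : (q'.map (algebraMap (Polynomial F) K)).natDegree = q.natDegree := by
    rw [hbq', natDegree_C_mul hb0]
  rw [natDegree_map_eq_of_injective hinj, hG] at h3
  have h4 : IsUnit q := by
    rw [eq_C_of_natDegree_eq_zero h3.symm, isUnit_C]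
    refine IsUnit.mk0 _ fun h0 => hq0 ?_
    rw [eq_C_of_natDegree_eq_zero h3.symm, h0, map_zero]
  exact hq.not_isUnit h4

theorem st_RESB : ST_RESB := by
  intro F _ d S hm hd hdeg h
  classical
  have hS : S ≠ 0 := by
    rintro rfl
    simp at hm
  have hDn : (dY S).natDegree ≤ S.natDegree := by
    rw [natDegree_le_iff_coeff_eq_zero]
    intro j hj
    rw [coeff_dY, coeff_eq_zero_of_natDegree_lt hj, derivative_zero]
  obtain ⟨U, V, -, -, hUV⟩ := exists_mul_add_mul_eq_C_resultant S (dY S) le_rfl le_rfl
    (Or.inl hm.ne')
  refine ⟨U, V, S.resultant (dY S), ?_, ?_, ?_⟩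
  · intro h0
    have hinj : Function.Injective (algebraMap (Polynomial F) (FractionRing (Polynomial F))) :=
      IsFractionRing.injective _ _
    have h1 := resultant_map_map S (dY S) S.natDegree (dY S).natDegree
      (algebraMap (Polynomial F) (FractionRing (Polynomial F)))
    rw [h0, map_zero] at h1
    have h2 : resultant (S.map (algebraMap (Polynomial F) (FractionRing (Polynomial F))))
        ((dY S).map (algebraMap (Polynomial F) (FractionRing (Polynomial F)))) = 0 := by
      rw [← h1, natDegree_map_eq_of_injective hinj, natDegree_map_eq_of_injective hinj]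
    exact (resultant_eq_zero_iff.1 h2).2 (resb_coprime S (dY S) hS h)
  · rw [← hUV]
    ring
  · have h3 : (S.resultant (dY S)).natDegree ≤
        ∑ j : Fin (S.natDegree + (dY S).natDegree),
          (j.addCases (fun _ => d - 1) (fun _ => d) : ℕ) := by
      refine resb_det_le _ _ fun i j => ?_
      rw [sylvester, Matrix.of_apply]
      induction j using Fin.addCases with
      | left j =>
        rw [Fin.addCases_left, Fin.addCases_left]
        split_ifs
        · rw [coeff_dY]
          exact (natDegree_derivative_le _).trans (Nat.sub_le_sub_right (hdeg _) 1)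
        · simp
      | right j =>
        rw [Fin.addCases_right, Fin.addCases_right]
        split_ifs
        · exact hdeg _
        · simp
    refine h3.trans_lt ?_
    rw [Fin.sum_univ_add]
    simp only [Fin.addCases_left, Fin.addCases_right, Finset.sum_const, Finset.card_univ,
      Fintype.card_fin, smul_eq_mul]
    have h4 : (dY S).natDegree * d ≤ S.natDegree * d := Nat.mul_le_mul_right _ hDn
    have h5 : S.natDegree * (d - 1) < S.natDegree * d :=
      Nat.mul_lt_mul_of_pos_left (by omega) hm
    have h6 : 2 * S.natDegree * d = S.natDegree * d + S.natDegree * d := by ring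
    omega

end Pool.Agent.Helper60.FF
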