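import Pool.Agent.Helper60.FF.DefsA

set_option autoImplicit false

namespace Pool.Agent.Helper60.FF

open Polynomial

theorem wro_cross {K : Type} [Field K] {a b p q r s : K} (h : a ≠ 0 ∨ b ≠ 0)
    (h1 : a * p = b * q) (h2 : a * r = b * s) : p * s = r * q := by
  rcases h with h | h
  · refine mul_left_cancel₀ h ?_
    linear_combination s * h1 - q * h2
  · refine mul_left_cancel₀ h ?_
    linear_combination (-p) * h2 + r * h1

theorem wro_eval_C {K : Type} [Field K] (F : Polynomial (Polynomial K)) (u c : K) :
    (F.eval (C c)).eval u = (sp u F).eval c := by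
  have h := Polynomial.hom_eval₂ F (RingHom.id _) (evalRingHom u) (C c)
  simp only [coe_evalRingHom, eval_C, RingHom.comp_id] at h
  rw [sp, eval_map, ← h]
  rfl

theorem wro_eval_CX {K : Type} [Field K] (F : Polynomial (Polynomial K)) (u c : K) :
    (F.eval (C c + X)).eval u = (sp u F).eval (c + u) := by
  have h := Polynomial.hom_eval₂ F (RingHom.id _) (evalRingHom u) (C c + X)
  simp only [coe_evalRingHom, eval_add, eval_C, eval_X, RingHom.comp_id] at h
  rw [sp, eval_map, ← h]
  rfl

theorem st_WRO : ST_WRO := by
  intro K _ _ F G S hS hG hF1 hF2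
  have hcross1 : ∀ u v : K, sp u F * sp v G = sp v F * sp u G := by
    intro u v
    refine Polynomial.eq_of_infinite_eval_eq _ _ (hS.mono fun c hc => ?_)
    obtain ⟨a, b, hab, h⟩ := hF1 c hc
    have h1 := congrArg (eval u) h
    have h2 := congrArg (eval v) h
    rw [eval_mul, eval_mul, eval_C, eval_C, wro_eval_C, wro_eval_C] at h1 h2
    rw [Set.mem_ofPred_eq, eval_mul, eval_mul]
    exact wro_cross hab h1 h2
  have hcross2 : ∀ u v c : K, c ∈ S → (sp u F).eval (c + u) * (sp v G).eval (c + v) =
      (sp v F).eval (c + v) * (sp u G).eval (c + u) := by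
    intro u v c hc
    obtain ⟨a, b, hab, h⟩ := hF2 c hc
    have h1 := congrArg (eval u) h
    have h2 := congrArg (eval v) h
    rw [eval_mul, eval_mul, eval_C, eval_C, wro_eval_CX, wro_eval_CX] at h1 h2
    exact wro_cross hab h1 h2
  obtain ⟨j, hj⟩ : ∃ j, G.coeff j ≠ 0 := by
    by_contra hcon
    push Not at hcon
    exact hG (Polynomial.ext fun j => by rw [hcon j, coeff_zero])
  have hinf : {u : K | sp u G ≠ 0}.Infinite := by
    have h1 : {u : K | (G.coeff j).eval u = 0}.Finite :=
      (Polynomial.finite_setOfPred_isRoot hj)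
    refine (Set.Finite.infinite_compl h1).mono fun u hu => ?_
    rw [Set.mem_compl_iff, Set.mem_ofPred_eq] at hu
    rw [Set.mem_ofPred_eq]
    intro h0
    refine hu ?_
    have h2 := congrArg (fun P => coeff P j) h0
    simpa [sp, coeff_map] using h2
  obtain ⟨v0, hv0⟩ := hinf.nonempty
  -- the shifted identity
  have hshift : ∀ u : K, sp u G ≠ 0 → ∀ x : K,
      (sp v0 F).eval (x + u) * (sp v0 G).eval (x + v0) =
        (sp v0 F).eval (x + v0) * (sp v0 G).eval (x + u) := by
    intro u hu
    set f := sp v0 F with hf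
    set g := sp v0 G with hg
    have h1 : (f.comp (X + C u) * g.comp (X + C v0) - f.comp (X + C v0) * g.comp (X + C u)) *
        ((sp u G).comp (X + C u) * g.comp (X + C v0)) = 0 := by
      refine Polynomial.eq_of_infinite_eval_eq _ _ (hS.mono fun c hc => ?_)
      have h2 := hcross2 u v0 c hc
      have h3 := congrArg (eval (c + u)) (hcross1 u v0)
      rw [← hf, ← hg] at h2 h3
      rw [eval_mul, eval_mul] at h3
      rw [Set.mem_ofPred_eq]
      simp only [eval_mul, eval_sub, eval_comp, eval_add, eval_X, eval_C, eval_zero]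
      linear_combination (g.eval (c + u) * g.eval (c + v0)) * h2 -
        (g.eval (c + v0) * g.eval (c + v0)) * h3
    have hne : ∀ (P : Polynomial K) (a : K), P ≠ 0 → P.comp (X + C a) ≠ 0 := by
      intro P a hP h0
      refine hP (Polynomial.funext fun x => ?_)
      have := congrArg (eval (x - a)) h0
      simpa using this
    have h4 := (mul_eq_zero.1 h1).resolve_right (mul_ne_zero (hne _ _ hu) (hne _ _ hv0))
    intro x
    have h5 := congrArg (eval x) h4
    simp only [eval_mul, eval_sub, eval_comp, eval_add, eval_X, eval_C, eval_zero] at h5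
    linear_combination h5
  have hall : ∀ u x : K, (sp v0 F).eval (x + u) * (sp v0 G).eval (x + v0) =
        (sp v0 F).eval (x + v0) * (sp v0 G).eval (x + u) := by
    intro u x
    have h1 : (sp v0 F).comp (C x + X) * C ((sp v0 G).eval (x + v0)) =
        C ((sp v0 F).eval (x + v0)) * (sp v0 G).comp (C x + X) := by
      refine Polynomial.eq_of_infinite_eval_eq _ _ (hinf.mono fun u hu => ?_)
      rw [Set.mem_ofPred_eq]
      simp only [eval_mul, eval_comp, eval_add, eval_X, eval_C]
      exact hshift u hu x
    have h2 := congrArg (eval u) h1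
    simpa only [eval_mul, eval_comp, eval_add, eval_X, eval_C] using h2
  obtain ⟨y, hy⟩ : ∃ y : K, (sp v0 G).eval y ≠ 0 := by
    by_contra hcon
    push Not at hcon
    exact hv0 (Polynomial.funext fun x => by rw [hcon x, eval_zero])
  set r : K := (sp v0 F).eval y / (sp v0 G).eval y with hr
  have hfg : sp v0 F = C r * sp v0 G := by
    refine Polynomial.funext fun x => ?_
    have h1 := hall (x - (y - v0)) (y - v0)
    rw [add_sub_cancel, sub_add_cancel] at h1
    rw [eval_mul, eval_C, hr, div_mul_eq_mul_div, eq_div_iff hy]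
    exact h1
  refine ⟨r, Polynomial.ext fun i => Polynomial.funext fun u => ?_⟩
  have h1 := hcross1 u v0
  rw [hfg] at h1
  have h2 : sp u F = C r * sp u G := by
    refine mul_right_cancel₀ hv0 ?_
    rw [h1]
    ring
  have h3 := congrArg (fun P => coeff P i) h2
  simpa [sp, coeff_map] using h3

end Pool.Agent.Helper60.FF
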